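import Pool.Agent.Lib.MP_c80ac4_an.DZ.Low

/-! # Estimates for the windows -/

namespace Forcing.DZ

open Forcing.Ratio Finset

/-- **Products over windows are products over digits.** -/
theorem prod_gam {θ : ℝ} (hθ : 0 < θ) (D m : ℝ) (a p : ℕ) :
    ∏ i ∈ Ico a (a + p), ‖gam θ D m i‖ =
      ∏ l ∈ range (2 * p), |Real.cos (Real.pi * (D * (m / (θ ^ 2) ^ (a + p)) * θ ^ l))| := by
  induction p with
  | zero => simp
  | succ p ih =>
    have h0 : (θ ^ 2) ^ (a + p) ≠ 0 := by positivity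
    rw [← add_assoc, Finset.prod_Ico_succ_top (by omega), ih, norm_gam, mul_add_one,
      prod_range_succ', prod_range_succ', mul_assoc]
    congr 1
    · refine prod_congr rfl fun l _ => ?_
      congr 2
      rw [pow_succ (θ ^ 2) (a + p)]
      field_simp
      try ring
    · congr 1
      · congr 2
        field_simp
        try ring
      · congr 2
        field_simp
        try ring

theorem prod_cos_anti {k K : ℕ} (h : k ≤ K) (f : ℕ → ℝ) :
    ∏ l ∈ range K, |Real.cos (f l)| ≤ ∏ l ∈ range k, |Real.cos (f l)| := by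
  rw [← Finset.prod_range_mul_prod_Ico _ h]
  refine mul_le_of_le_one_right (prod_nonneg fun _ _ => abs_nonneg _) ?_
  exact prod_le_one (fun _ _ => abs_nonneg _) fun _ _ => Real.abs_cos_le_one _

theorem one_sub_sum_le {ι : Type*} (s : Finset ι) (x : ι → ℝ) (h0 : ∀ i, 0 ≤ x i)
    (h1 : ∀ i, x i ≤ 1) : 1 - ∑ i ∈ s, (1 - x i) ≤ ∏ i ∈ s, x i := by
  classical
  induction s using Finset.induction_on with
  | empty => simp
  | insert a s ha ih =>
    rw [sum_insert ha, prod_insert ha]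
    have h2 : ∏ i ∈ s, x i ≤ 1 := prod_le_one (fun i _ => h0 i) fun i _ => h1 i
    have h3 : 0 ≤ ∏ i ∈ s, x i := prod_nonneg fun i _ => h0 i
    nlinarith [h0 a, h1 a]

theorem one_sub_gam (θ D m : ℝ) (i : ℕ) : 1 - ‖gam θ D m i‖ ≤
    Real.pi ^ 2 * D ^ 2 * (θ ^ 2 + 1) / 2 * (m ^ 2 * ((θ ^ 2)⁻¹ ^ 2) ^ (i + 1)) := by
  rw [norm_gam]
  set a := Real.pi * (m * (D * θ / (θ ^ 2) ^ (i + 1))) with ha
  set b := Real.pi * (m * (D / (θ ^ 2) ^ (i + 1))) with hb
  have h1 := Real.one_sub_sq_div_two_le_cos (x := a)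
  have h2 := Real.one_sub_sq_div_two_le_cos (x := b)
  have h3 : 1 - |Real.cos a| ≤ a ^ 2 / 2 := by
    have := le_abs_self (Real.cos a)
    linarith
  have h4 : 1 - |Real.cos b| ≤ b ^ 2 / 2 := by
    have := le_abs_self (Real.cos b)
    linarith
  have h5 := Real.abs_cos_le_one a
  have h6 := Real.abs_cos_le_one b
  have h7 : 1 - |Real.cos a| * |Real.cos b| ≤ a ^ 2 / 2 + b ^ 2 / 2 := by
    nlinarith [abs_nonneg (Real.cos a), abs_nonneg (Real.cos b)]
  refine h7.trans (le_of_eq ?_)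
  rw [ha, hb]
  have h8 : ((θ ^ 2)⁻¹ ^ 2) ^ (i + 1) = (((θ ^ 2) ^ (i + 1))⁻¹) ^ 2 := by
    rw [← pow_mul, mul_comm 2 (i + 1), pow_mul, inv_pow]
  rw [h8, div_eq_mul_inv (D * θ), div_eq_mul_inv D]
  ring

/-- **The own window.** -/
theorem own {θ D : ℝ} (hθ : 1 < θ) (hD : D ≠ 0) : ∃ t0 b0 : ℝ, 0 < t0 ∧ t0 ≤ 1 ∧ 0 < b0 ∧
    ∀ (n j J : ℕ), j < J → t0 * (θ ^ 2) ^ j ≤ n → (n : ℝ) < t0 * (θ ^ 2) ^ (j + 1) →
      b0 ≤ WW θ D J n j := by
  have hθ0 : 0 < θ := by linarith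
  have hT : 1 < θ ^ 2 := by nlinarith
  set r : ℝ := (θ ^ 2)⁻¹ ^ 2 with hr
  have hr0 : 0 < r := by positivity
  have hr1 : r < 1 := by
    rw [hr]
    have h1 : (θ ^ 2)⁻¹ < 1 := inv_lt_one_of_one_lt₀ hT
    have h2 : 0 < (θ ^ 2)⁻¹ := by positivity
    nlinarith
  set K : ℝ := Real.pi ^ 2 * D ^ 2 * (θ ^ 2 + 1) * (r / (1 - r)) with hK
  have hr2 : 0 < 1 - r := by linarith
  have hpi := Real.pi_pos
  have hK0 : 0 ≤ K := by positivity
  have hDa : 0 < |D| := abs_pos.2 hD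
  set t0 : ℝ := 1 / (1 + 4 * |D| * θ + K) with ht0
  have hden : 0 < 1 + 4 * |D| * θ + K := by positivity
  have ht00 : 0 < t0 := by positivity
  have hmul : t0 * (1 + 4 * |D| * θ + K) = 1 := by
    rw [ht0]
    field_simp
  have hx0 : 0 ≤ t0 * (4 * |D| * θ) := by positivity
  have hx1 : 0 ≤ t0 * K := by positivity
  have ht01 : t0 ≤ 1 := by nlinarith
  have ht02 : t0 * (4 * |D| * θ) ≤ 1 := by nlinarith
  have ht03 : t0 * K ≤ 1 := by nlinarith
  refine ⟨t0, 2 * D ^ 2 * θ * (t0 / θ ^ 2) ^ 2, ht00, ht01, by positivity, ?_⟩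
  intro n j J hj hn1 hn2
  have hTp : 0 < (θ ^ 2) ^ (j + 1) := by positivity
  -- the factor of the window
  set y : ℝ := n / (θ ^ 2) ^ (j + 1) with hy
  have hy1 : t0 / θ ^ 2 ≤ y := by
    rw [hy, div_le_div_iff₀ (by positivity) hTp, pow_succ, ← mul_assoc]
    exact mul_le_mul_of_nonneg_right hn1 (by positivity)
  have hy2 : y < t0 := by
    rw [hy, div_lt_iff₀ hTp]
    exact hn2
  have hy0 : 0 < y := lt_of_lt_of_le (by positivity) hy1
  have hbet : 4 * D ^ 2 * θ * (t0 / θ ^ 2) ^ 2 ≤ ‖bet θ D n j‖ := by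
    rw [norm_bet]
    have e1 : (n : ℝ) * (D * θ / (θ ^ 2) ^ (j + 1)) = D * θ * y := by rw [hy]; ring
    have e2 : (n : ℝ) * (D / (θ ^ 2) ^ (j + 1)) = D * y := by rw [hy]; ring
    rw [e1, e2]
    have hyD : |D| * θ * y ≤ 1 / 4 := by
      have : |D| * θ * y ≤ |D| * θ * t0 := by gcongr
      linarith
    have hyD2 : |D| * y ≤ 1 / 4 := by
      have : |D| * y ≤ |D| * θ * y := by
        have h3 : |D| * y * 1 ≤ |D| * y * θ := mul_le_mul_of_nonneg_left hθ.le (by positivity)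
        linarith
      linarith
    have a1 : |Real.pi * (D * θ * y)| = Real.pi * (|D| * θ * y) := by
      rw [abs_mul, abs_mul, abs_mul, abs_of_pos hpi, abs_of_pos hθ0, abs_of_pos hy0]
    have a2 : |Real.pi * (D * y)| = Real.pi * (|D| * y) := by
      rw [abs_mul, abs_mul, abs_of_pos hpi, abs_of_pos hy0]
    have s1 := Real.mul_abs_le_abs_sin (x := Real.pi * (D * θ * y)) (by
      rw [a1]
      nlinarith)
    have s2 := Real.mul_abs_le_abs_sin (x := Real.pi * (D * y)) (by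
      rw [a2]
      nlinarith)
    rw [a1] at s1
    rw [a2] at s2
    have c1 : 2 / Real.pi * (Real.pi * (|D| * θ * y)) = 2 * (|D| * θ * y) := by field_simp
    have c2 : 2 / Real.pi * (Real.pi * (|D| * y)) = 2 * (|D| * y) := by field_simp
    rw [c1] at s1
    rw [c2] at s2
    have h9 : (2 * (|D| * θ * y)) * (2 * (|D| * y)) ≤
        |Real.sin (Real.pi * (D * θ * y))| * |Real.sin (Real.pi * (D * y))| :=
      mul_le_mul s1 s2 (by positivity) (abs_nonneg _)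
    refine le_trans ?_ h9
    have h10 : (2 * (|D| * θ * y)) * (2 * (|D| * y)) = 4 * |D| ^ 2 * θ * y ^ 2 := by ring
    rw [h10, sq_abs]
    gcongr
  -- the later windows
  have hFF : 1 / 2 ≤ ‖FF θ D J n (j + 1)‖ := by
    unfold FF
    rw [norm_prod]
    refine le_trans ?_ (one_sub_sum_le _ _ (fun _ => norm_nonneg _) fun _ => norm_gam_le _ _ _ _)
    have h1 : ∑ i ∈ Ico (j + 1) J, (1 - ‖gam θ D n i‖) ≤ ∑ i ∈ Ico (j + 1) J,
        Real.pi ^ 2 * D ^ 2 * (θ ^ 2 + 1) / 2 * (n : ℝ) ^ 2 * r * r ^ i := by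
      refine sum_le_sum fun i _ => (one_sub_gam θ D n i).trans (le_of_eq ?_)
      rw [← hr, pow_succ]
      ring
    rw [← mul_sum] at h1
    have h2 := geom_sum_Ico_le_of_lt_one (m := j + 1) (n := J) hr0.le hr1
    have h3 : Real.pi ^ 2 * D ^ 2 * (θ ^ 2 + 1) / 2 * (n : ℝ) ^ 2 * r *
        ∑ i ∈ Ico (j + 1) J, r ^ i ≤
        Real.pi ^ 2 * D ^ 2 * (θ ^ 2 + 1) / 2 * (n : ℝ) ^ 2 * r * (r ^ (j + 1) / (1 - r)) :=
      mul_le_mul_of_nonneg_left h2 (by positivity)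
    have h4 : (n : ℝ) ^ 2 * r ^ (j + 1) ≤ t0 ^ 2 := by
      have h5 : r ^ (j + 1) = (((θ ^ 2) ^ (j + 1))⁻¹) ^ 2 := by
        rw [hr, ← pow_mul, mul_comm 2 (j + 1), pow_mul, inv_pow]
      have h6 : (n : ℝ) ^ 2 * r ^ (j + 1) = y ^ 2 := by
        rw [h5, hy, div_eq_mul_inv]
        ring
      rw [h6]
      gcongr
    have h7 : Real.pi ^ 2 * D ^ 2 * (θ ^ 2 + 1) / 2 * (n : ℝ) ^ 2 * r * (r ^ (j + 1) / (1 - r)) =
        K / 2 * ((n : ℝ) ^ 2 * r ^ (j + 1)) := by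
      rw [hK]
      field_simp
    have h8 : K / 2 * ((n : ℝ) ^ 2 * r ^ (j + 1)) ≤ K / 2 * t0 ^ 2 := by gcongr
    have h9 : K / 2 * t0 ^ 2 ≤ 1 / 2 := by
      have h10 : t0 ^ 2 ≤ t0 := by nlinarith
      have h11 : K * t0 ^ 2 ≤ K * t0 := mul_le_mul_of_nonneg_left h10 hK0
      linarith
    linarith
  unfold WW
  have hb0 : 0 ≤ 4 * D ^ 2 * θ * (t0 / θ ^ 2) ^ 2 := by positivity
  calc 2 * D ^ 2 * θ * (t0 / θ ^ 2) ^ 2 = (4 * D ^ 2 * θ * (t0 / θ ^ 2) ^ 2) * (1 / 2) := by ring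
    _ ≤ ‖bet θ D n j‖ * ‖FF θ D J n (j + 1)‖ := by
        exact mul_le_mul hbet hFF (by norm_num) (norm_nonneg _)

/-- every positive integer has a window -/
theorem exists_window {θ t0 : ℝ} (hθ : 1 < θ) (ht0 : 0 < t0) (ht1 : t0 ≤ 1) {n : ℕ} (hn : 1 ≤ n) :
    ∃ j : ℕ, t0 * (θ ^ 2) ^ j ≤ n ∧ (n : ℝ) < t0 * (θ ^ 2) ^ (j + 1) := by
  have hT : 1 < θ ^ 2 := by nlinarith
  have hn' : (1 : ℝ) ≤ n := by exact_mod_cast hn
  obtain ⟨j, h1, h2⟩ := exists_nat_pow_near (x := (n : ℝ) / t0) (y := θ ^ 2) (by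
    rw [le_div_iff₀ ht0]
    linarith) hT
  refine ⟨j, ?_, ?_⟩
  · rw [le_div_iff₀ ht0] at h1
    linarith
  · rw [div_lt_iff₀ ht0] at h2
    linarith

/-- the points of the digit set that are reached -/
theorem mem_digitSet {θ : ℝ} (hθ : 1 < θ) (d₀ d₁ : ℝ) (J : ℕ) {x : ℝ}
    (hx : x ∈ Reach θ (d₁ - d₀) J) : d₀ / (θ - 1) + x ∈ digitSet θ {d₀, d₁} := by
  have hθ0 : 0 < θ := by linarith
  have key : ∀ J, ∀ x ∈ Reach θ (d₁ - d₀) J, ∃ b : ℕ → ℝ, (∀ k, b k = 0 ∨ b k = 1) ∧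
      x = ∑ k ∈ range (2 * J), (d₁ - d₀) * b k * θ⁻¹ ^ (k + 1) := by
    intro J
    induction J with
    | zero =>
      intro x hx
      refine ⟨fun _ => 0, fun _ => Or.inl rfl, ?_⟩
      have : x = 0 := hx
      simp [this]
    | succ J ih =>
      rintro y ⟨x, hx, w, rfl⟩
      obtain ⟨b, hb, hxb⟩ := ih x hx
      refine ⟨fun k => if k < 2 * J then b k else if k = 2 * J then bt w.1 else bt w.2, ?_, ?_⟩
      · intro k
        simp only
        split_ifs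
        · exact hb k
        · unfold bt
          split_ifs <;> simp
        · unfold bt
          split_ifs <;> simp
      · rw [mul_add_one, sum_range_succ, sum_range_succ, hxb, add_assoc]
        congr 1
        · refine sum_congr rfl fun k hk => ?_
          simp only
          rw [if_pos (mem_range.1 hk)]
        · simp only
          rw [if_neg (by omega), if_pos trivial, if_neg (by omega), if_neg (by omega)]
          unfold sh
          have h1 : (θ ^ 2) ^ (J + 1) = θ ^ (2 * J + 1) * θ := by ring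
          have h2 : (θ ^ 2) ^ (J + 1) = θ ^ (2 * J + 1 + 1) := by ring
          rw [inv_pow, inv_pow]
          have h3 : (d₁ - d₀) * (bt w.1 * θ + bt w.2) / (θ ^ 2) ^ (J + 1) =
              (d₁ - d₀) * bt w.1 * θ / (θ ^ 2) ^ (J + 1) +
                (d₁ - d₀) * bt w.2 / (θ ^ 2) ^ (J + 1) := by ring
          rw [h3]
          congr 1
          · rw [h1]
            field_simp
          · rw [h2, div_eq_mul_inv]
  obtain ⟨b, hb, hxb⟩ := key J x hx
  refine ⟨fun k => d₀ + (d₁ - d₀) * (if k < 2 * J then b k else 0), fun k => ?_, ?_⟩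
  · simp only [Set.mem_insert_iff, Set.mem_singleton_iff]
    split_ifs
    · rcases hb k with h | h <;> rw [h]
      · left
        ring
      · right
        ring
    · left
      ring
  · have h1 : HasSum (fun k : ℕ => d₀ * θ⁻¹ ^ (k + 1)) (d₀ / (θ - 1)) := by
      have h2 := (hasSum_geometric_of_lt_one (r := θ⁻¹) (by positivity)
        (inv_lt_one_of_one_lt₀ hθ)).mul_left (d₀ * θ⁻¹)
      have h3 : (fun k : ℕ => d₀ * θ⁻¹ ^ (k + 1)) = fun k : ℕ => d₀ * θ⁻¹ * θ⁻¹ ^ k := by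
        ext k
        rw [pow_succ]
        ring
      have h4 : d₀ / (θ - 1) = d₀ * θ⁻¹ * (1 - θ⁻¹)⁻¹ := by
        have : θ - 1 ≠ 0 := by linarith
        have h5 : 1 - θ⁻¹ = (θ - 1) / θ := by field_simp
        rw [h5]
        field_simp
      rw [h3, h4]
      exact h2
    have h2 : HasSum (fun k : ℕ => (d₁ - d₀) * (if k < 2 * J then b k else 0) * θ⁻¹ ^ (k + 1))
        x := by
      rw [hxb]
      have h3 : ∑ k ∈ range (2 * J), (d₁ - d₀) * b k * θ⁻¹ ^ (k + 1) =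
          ∑ k ∈ range (2 * J), (d₁ - d₀) * (if k < 2 * J then b k else 0) * θ⁻¹ ^ (k + 1) :=
        sum_congr rfl fun k hk => by rw [if_pos (mem_range.1 hk)]
      rw [h3]
      refine hasSum_sum_of_ne_finset_zero fun k hk => ?_
      rw [if_neg (by simpa using hk)]
      ring
    have h3 : (fun k : ℕ => (d₀ + (d₁ - d₀) * (if k < 2 * J then b k else 0)) * θ⁻¹ ^ (k + 1)) =
        fun k : ℕ => d₀ * θ⁻¹ ^ (k + 1) +
          (d₁ - d₀) * (if k < 2 * J then b k else 0) * θ⁻¹ ^ (k + 1) := by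
      ext k
      ring
    rw [h3]
    exact h1.add h2

end Forcing.DZ
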