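import Mathlib

/-!
# Row D5 (helper3): uniform decay of the products of cosines

PROOF IN WORDS. Let `P k t = ∏ i < k, |cos (π (D t θ^i))|`: continuous in `t`, values in `[0,1]`, decreasing
in `k`. POINTWISE: for `t > 0`, `P k t → 0`. If not, the decreasing sequence stays `≥ L > 0`; all factors
are `≥ L > 0`; `1 - x ≤ -log x` gives `∑_{i<k} (1 - |cos|) ≤ -log P k t ≤ -log L`, so `1 - |cos|` is
summable, and `1 - |cos (π y)| ≥ (1 - cos² (π y))/2 = sin² (π y)/2 ≥ 2 (y - round y)^2`
(`|sin (π y)| = |sin (π (y - round y))| ≥ 2 |y - round y|` because `|y - round y| ≤ 1/2`: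
`Real.mul_le_sin` or `Real.mul_abs_le_abs_sin`), so `∑ (l θ^i - round (l θ^i))^2 < ∞` with `l = D t ≠ 0`,
contradicting `H`. UNIFORMITY on the compact `[c, C]`: Dini (`Mathlib.Topology.UniformSpace.Dini`,
e.g. `Antitone.tendstoUniformlyOn_of_forall_tendsto` or similar), or directly: the sets
`{t ∈ [c,C] : P k t ≥ ε}` are compact, decreasing, with empty intersection, so one is empty
(`IsCompact.elim_directed_family_closed_of_isCompact` or
`IsCompact.nonempty_iInter_of_sequence_nonempty_isCompact_isClosed`).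
-/

namespace Forcing.DZ

private lemma d5_sin (y : ℝ) : 2 * |y - round y| ≤ |Real.sin (Real.pi * y)| := by
  have h1 : |y - round y| ≤ 1 / 2 := abs_sub_round y
  have h2 : Real.sin (Real.pi * (y - round y)) = (-1) ^ (round y) * Real.sin (Real.pi * y) := by
    rw [mul_sub, mul_comm Real.pi ((round y : ℤ) : ℝ)]
    exact Real.sin_sub_int_mul_pi _ _
  have h3 : |Real.sin (Real.pi * (y - round y))| = |Real.sin (Real.pi * y)| := by
    rw [h2, abs_mul, abs_zpow, abs_neg, abs_one, one_zpow, one_mul]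
  have h4 : |Real.pi * (y - round y)| ≤ Real.pi / 2 := by
    rw [abs_mul, abs_of_pos Real.pi_pos]
    nlinarith [Real.pi_pos]
  have h5 := Real.mul_abs_le_abs_sin h4
  rw [h3, abs_mul, abs_of_pos Real.pi_pos] at h5
  have h6 : 2 / Real.pi * (Real.pi * |y - round y|) = 2 * |y - round y| := by
    field_simp
  linarith

private lemma d5_pt (u : ℕ → ℝ) (H : ¬ Summable fun j : ℕ => (u j - round (u j)) ^ 2) (ε : ℝ) (hε : 0 < ε) :
    ∃ k : ℕ, ∏ i ∈ Finset.range k, |Real.cos (Real.pi * u i)| < ε := by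
  by_contra hcon
  push Not at hcon
  apply H
  have hpos : ∀ i, 0 < |Real.cos (Real.pi * u i)| := by
    intro i
    rcases (abs_nonneg (Real.cos (Real.pi * u i))).lt_or_eq with h | h
    · exact h
    · exfalso
      have h1 := hcon (i + 1)
      rw [Finset.prod_range_succ, ← h, mul_zero] at h1
      linarith
  have hsum : Summable fun i => 1 - |Real.cos (Real.pi * u i)| := by
    refine summable_of_sum_range_le (c := - Real.log ε) (fun i => ?_) (fun k => ?_)
    · have := Real.abs_cos_le_one (Real.pi * u i)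
      linarith
    · have h1 : ∀ i ∈ Finset.range k, 1 - |Real.cos (Real.pi * u i)| ≤ - Real.log |Real.cos (Real.pi * u i)| := by
        intro i _
        have := Real.log_le_sub_one_of_pos (hpos i)
        linarith
      refine (Finset.sum_le_sum h1).trans ?_
      rw [Finset.sum_neg_distrib, ← Real.log_prod (fun i _ => (hpos i).ne')]
      have := Real.log_le_log hε (hcon k)
      linarith
  refine Summable.of_nonneg_of_le (fun i => sq_nonneg _) (fun i => ?_) (hsum.mul_left (1 / 2))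
  have h1 := d5_sin (u i)
  have h2 : (2 * |u i - round (u i)|) ^ 2 ≤ Real.sin (Real.pi * u i) ^ 2 := by
    rw [← sq_abs (Real.sin _)]
    exact pow_le_pow_left₀ (by positivity) h1 2
  have h3 : Real.sin (Real.pi * u i) ^ 2 = 1 - |Real.cos (Real.pi * u i)| ^ 2 := by
    rw [sq_abs]
    linarith [Real.sin_sq_add_cos_sq (Real.pi * u i)]
  have h4 : (2 * |u i - round (u i)|) ^ 2 = 4 * (u i - round (u i)) ^ 2 := by
    rw [mul_pow, sq_abs]
    norm_num
  have h5 := Real.abs_cos_le_one (Real.pi * u i)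
  have h6 := abs_nonneg (Real.cos (Real.pi * u i))
  nlinarith

theorem unif_decay {θ D : ℝ} (hθ : 1 < θ) (hD : D ≠ 0)
    (H : ∀ l : ℝ, l ≠ 0 → ¬ Summable fun j : ℕ => (l * θ ^ j - round (l * θ ^ j)) ^ 2)
    (c C ε : ℝ) (hc : 0 < c) (hε : 0 < ε) :
    ∃ k : ℕ, ∀ t : ℝ, c ≤ t → t ≤ C →
      ∏ i ∈ Finset.range k, |Real.cos (Real.pi * (D * t * θ ^ i))| ≤ ε := by
  by_contra hcon
  push Not at hcon
  have hcont : ∀ k : ℕ, Continuous fun t : ℝ => ∏ i ∈ Finset.range k, |Real.cos (Real.pi * (D * t * θ ^ i))| := by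
    intro k
    refine continuous_finsetProd _ fun i _ => ?_
    fun_prop
  obtain ⟨t, ht⟩ := IsCompact.nonempty_iInter_of_sequence_nonempty_isCompact_isClosed
    (fun k : ℕ => Set.Icc c C ∩ {t : ℝ | ε ≤ ∏ i ∈ Finset.range k, |Real.cos (Real.pi * (D * t * θ ^ i))|})
    (fun k => by
      rintro t ⟨h1, h2⟩
      refine ⟨h1, ?_⟩
      have h3 : ε ≤ ∏ i ∈ Finset.range (k + 1), |Real.cos (Real.pi * (D * t * θ ^ i))| := h2
      rw [Finset.prod_range_succ] at h3
      refine h3.trans (mul_le_of_le_one_right (Finset.prod_nonneg fun i _ => abs_nonneg _) (Real.abs_cos_le_one _)))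
    (fun k => by
      obtain ⟨t, h1, h2, h3⟩ := hcon k
      exact ⟨t, ⟨h1, h2⟩, h3.le⟩)
    (isCompact_Icc.inter_right (isClosed_le continuous_const (hcont 0)))
    (fun k => isClosed_Icc.inter (isClosed_le continuous_const (hcont k)))
  have h0 : ∀ k : ℕ, t ∈ Set.Icc c C ∧ ε ≤ ∏ i ∈ Finset.range k, |Real.cos (Real.pi * (D * t * θ ^ i))| :=
    fun k => Set.mem_iInter.1 ht k
  have htpos : 0 < t := hc.trans_le (h0 0).1.1
  obtain ⟨k, hk⟩ := d5_pt (fun i => D * t * θ ^ i) (H (D * t) (mul_ne_zero hD htpos.ne')) ε hε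
  exact absurd (h0 k).2 (not_le.2 hk)

end Forcing.DZ
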