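import Pool.Agent.Lib.MP_c80ac4_an.DZ.H1

/-!
# Row H3 (helper3): the Hankel determinants of a sequence close to a geometric one vanish eventually

PROOF IN WORDS. Write `a j = l θ^j - ε j`, `∑ ε j ^ 2 < ∞`. In the real matrix `(a (i+j))`, `0 ≤ i, j ≤ n`,
subtract `θ` times the previous column from every column but the first
(`Matrix.det_eq_of_forall_col_eq_smul_add_pred` with `c = fun _ => θ`): the determinant is that of
`B i 0 = a i`, `B i (j+1) = a (i+j+1) - θ a (i+j) = -(ε (i+j+1) - θ ε (i+j)) =: η (i+j)`.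
`∑ η j ^ 2 < ∞` (`η^2 ≤ 2 ε'^2 + 2 θ^2 ε^2`), let `R j = ∑_{m ≥ j} η m ^ 2 → 0`. Hadamard (H1):
`|det| ≤ ‖column 0‖ ∏_{j=0}^{n-1} sqrt (R j)`, and `‖column 0‖ ≤ ∑_{i ≤ n} |a i| ≤ (n+1) C θ^n` with
`C = |l| + sup |ε|`. Let `ρ = 1/(4 θ)`. There is `j0` with `sqrt (R j) ≤ ρ` for `j ≥ j0`, so
`|det| ≤ C (n+1) θ^n K ρ^(n - j0)` with `K = ∏_{j<j0} sqrt (R j)` (or any bound `max(1, sqrt (R 0))^j0`),
which tends to `0` as `n → ∞`. The determinant is an integer (`Int.cast_det` / `RingHom.map_det`), so it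
is `0` for large `n`.
-/

namespace Forcing.DZ

private theorem h3_decay (θ : ℝ) (hθ : 1 < θ) (r : ℕ → ℝ) (hr0 : ∀ n, 0 ≤ r n)
    (hr : Filter.Tendsto r Filter.atTop (nhds 0)) (C : ℝ) (hC : 0 ≤ C) :
    ∃ N : ℕ, ∀ n, N ≤ n → ((n : ℝ) + 1) * C * θ ^ n * ∏ j ∈ Finset.range n, r j < 1 := by
  have hθ0 : 0 < θ := by linarith
  have h1 : ∀ᶠ n in Filter.atTop, r n < 1 / (4 * θ) :=
    hr.eventually (gt_mem_nhds (by positivity))
  obtain ⟨N0, hN0⟩ := Filter.eventually_atTop.1 h1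
  set u : ℕ → ℝ := fun n => ((n : ℝ) + 1) * C * θ ^ n * ∏ j ∈ Finset.range n, r j with hu
  have hu0 : ∀ n, 0 ≤ u n := fun n => by
    have : 0 ≤ ∏ j ∈ Finset.range n, r j := Finset.prod_nonneg (fun j _ => hr0 j)
    positivity
  have hstep : ∀ n, N0 ≤ n → u (n + 1) ≤ 1 / 2 * u n := by
    intro n hn
    have h2 := (hN0 n hn).le
    have h3 : θ * r n ≤ 1 / 4 := by
      have := mul_le_mul_of_nonneg_left h2 hθ0.le
      have e : θ * (1 / (4 * θ)) = 1 / 4 := by field_simp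
      linarith
    have h4 : 0 ≤ C * θ ^ n * ∏ j ∈ Finset.range n, r j := by
      have : 0 ≤ ∏ j ∈ Finset.range n, r j := Finset.prod_nonneg (fun j _ => hr0 j)
      positivity
    have e1 : u (n + 1) = ((n : ℝ) + 2) * (θ * r n) * (C * θ ^ n * ∏ j ∈ Finset.range n, r j) := by
      simp only [hu, Finset.prod_range_succ, pow_succ]
      push_cast
      ring
    have e2 : 1 / 2 * u n = (((n : ℝ) + 1) / 2) * (C * θ ^ n * ∏ j ∈ Finset.range n, r j) := by
      simp only [hu]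
      ring
    rw [e1, e2]
    refine mul_le_mul_of_nonneg_right ?_ h4
    have hn0 : (0 : ℝ) ≤ n := Nat.cast_nonneg _
    nlinarith
  have hgeo : ∀ k, u (N0 + k) ≤ (1 / 2) ^ k * u N0 := by
    intro k
    induction k with
    | zero => simp
    | succ k ih =>
      have h5 := hstep (N0 + k) (by omega)
      rw [show N0 + (k + 1) = N0 + k + 1 by ring, pow_succ]
      nlinarith
  have hlim : Filter.Tendsto (fun k : ℕ => (1 / 2 : ℝ) ^ k * u N0) Filter.atTop (nhds 0) := by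
    have := (tendsto_pow_atTop_nhds_zero_of_lt_one (by norm_num : (0 : ℝ) ≤ 1 / 2)
      (by norm_num)).mul_const (u N0)
    simpa using this
  obtain ⟨K, hK⟩ := Filter.eventually_atTop.1 (hlim.eventually (gt_mem_nhds one_pos))
  refine ⟨N0 + K, fun n hn => ?_⟩
  obtain ⟨k, rfl⟩ := Nat.exists_eq_add_of_le (le_trans (Nat.le_add_right N0 K) hn)
  exact lt_of_le_of_lt (hgeo k) (hK k (by omega))

theorem det_zero {θ l : ℝ} (hθ : 1 < θ) (a : ℕ → ℤ)
    (hs : Summable fun j : ℕ => (l * θ ^ j - a j) ^ 2) :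
    ∃ N : ℕ, ∀ n, N ≤ n → (Matrix.of fun i j : Fin (n + 1) => a ((i : ℕ) + j)).det = 0 := by
  have hθ0 : 0 < θ := by linarith
  set ε : ℕ → ℝ := fun j => l * θ ^ j - a j with hε
  set η : ℕ → ℝ := fun m => (a (m + 1) : ℝ) - θ * a m with hηd
  have hηε : ∀ m, η m = θ * ε m - ε (m + 1) := by
    intro m
    simp only [hε, hηd, pow_succ]
    ring
  have hη : Summable fun m => η m ^ 2 := by
    have h1 : Summable fun m => ε (m + 1) ^ 2 := (summable_nat_add_iff 1).2 hs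
    have h2 : Summable fun m => 2 * ε (m + 1) ^ 2 + 2 * θ ^ 2 * ε m ^ 2 :=
      (h1.mul_left 2).add (hs.mul_left (2 * θ ^ 2))
    refine Summable.of_nonneg_of_le (fun m => sq_nonneg _) (fun m => ?_) h2
    rw [hηε]
    nlinarith [sq_nonneg (θ * ε m + ε (m + 1))]
  set R : ℕ → ℝ := fun j => ∑' m, η (m + j) ^ 2 with hRd
  have hR : Filter.Tendsto R Filter.atTop (nhds 0) := tendsto_sum_nat_add (fun m => η m ^ 2)
  have hR0 : ∀ j, 0 ≤ R j := fun j => tsum_nonneg (fun m => sq_nonneg _)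
  set r : ℕ → ℝ := fun j => Real.sqrt (R j) with hrd
  have hr : Filter.Tendsto r Filter.atTop (nhds 0) := by
    have h0 := (Real.continuous_sqrt.tendsto 0).comp hR
    rw [Real.sqrt_zero] at h0
    exact h0
  have hcol : ∀ (n j : ℕ), ∑ i : Fin (n + 1), η ((i : ℕ) + j) ^ 2 ≤ R j := by
    intro n j
    rw [Fin.sum_univ_eq_sum_range (fun i => η (i + j) ^ 2) (n + 1)]
    exact Summable.sum_le_tsum _ (fun i _ => sq_nonneg _) ((summable_nat_add_iff j).2 hη)
  set S : ℝ := Real.sqrt (∑' j, ε j ^ 2) with hS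
  have hεS : ∀ j, |ε j| ≤ S := fun j =>
    Real.abs_le_sqrt (hs.le_tsum j (fun i _ => sq_nonneg _))
  have hS0 : 0 ≤ S := Real.sqrt_nonneg _
  set C : ℝ := |l| + S with hC
  have hC0 : 0 ≤ C := by positivity
  have ha : ∀ j, |(a j : ℝ)| ≤ C * θ ^ j := by
    intro j
    have h1 : (a j : ℝ) = l * θ ^ j - ε j := by simp only [hε]; ring
    have h2 : (1 : ℝ) ≤ θ ^ j := one_le_pow₀ hθ.le
    have h3 : |l * θ ^ j| = |l| * θ ^ j := by
      rw [abs_mul, abs_of_pos (pow_pos hθ0 j)]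
    rw [h1]
    calc |l * θ ^ j - ε j| ≤ |l * θ ^ j| + |ε j| := abs_sub _ _
      _ ≤ |l| * θ ^ j + S * θ ^ j := by
        rw [h3]
        have := mul_le_mul_of_nonneg_left h2 hS0
        have := hεS j
        linarith
      _ = C * θ ^ j := by rw [hC]; ring
  obtain ⟨N, hN⟩ := h3_decay θ hθ r (fun n => Real.sqrt_nonneg _) hr C hC0
  refine ⟨N, fun n hn => ?_⟩
  set M : Matrix (Fin (n + 1)) (Fin (n + 1)) ℤ := Matrix.of fun i j : Fin (n + 1) =>
    a ((i : ℕ) + j) with hM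
  set A : Matrix (Fin (n + 1)) (Fin (n + 1)) ℝ := Matrix.of fun i j : Fin (n + 1) =>
    (a ((i : ℕ) + j) : ℝ) with hA
  have hcast : ((M.det : ℤ) : ℝ) = A.det := by
    have h1 := RingHom.map_det (Int.castRingHom ℝ) M
    have h2 : (Int.castRingHom ℝ).mapMatrix M = A := by
      ext i j
      simp [hM, hA]
    rw [h2] at h1
    simpa using h1
  set B : Matrix (Fin (n + 1)) (Fin (n + 1)) ℝ := Matrix.of fun i j =>
    Fin.cases (motive := fun _ => ℝ) (a (i : ℕ) : ℝ) (fun k : Fin n => η ((i : ℕ) + k)) j with hB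
  have hB0 : ∀ i, B i 0 = (a (i : ℕ) : ℝ) := fun i => by simp [hB]
  have hBs : ∀ i (j : Fin n), B i j.succ = η ((i : ℕ) + j) := fun i j => by simp [hB]
  have hdet : A.det = B.det := by
    refine Matrix.det_eq_of_forall_col_eq_smul_add_pred (fun _ => θ) ?_ ?_
    · intro i
      rw [hB0]
      simp [hA]
    · intro i j
      rw [hBs]
      simp only [hA, hηd, Matrix.of_apply, Fin.val_succ, Fin.val_castSucc]
      rw [show (i : ℕ) + ((j : ℕ) + 1) = (i : ℕ) + j + 1 by ring]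
      ring
  have hcol0 : Real.sqrt (∑ i, B i 0 ^ 2) ≤ ((n : ℝ) + 1) * C * θ ^ n := by
    rw [Real.sqrt_le_iff]
    refine ⟨by positivity, ?_⟩
    have h1 : ∀ i : Fin (n + 1), B i 0 ^ 2 ≤ (C * θ ^ n) ^ 2 := by
      intro i
      rw [hB0, ← sq_abs]
      refine pow_le_pow_left₀ (abs_nonneg _) ((ha i).trans ?_) 2
      exact mul_le_mul_of_nonneg_left (pow_le_pow_right₀ hθ.le (Nat.lt_succ_iff.1 i.isLt)) hC0
    calc ∑ i, B i 0 ^ 2 ≤ ∑ _i : Fin (n + 1), (C * θ ^ n) ^ 2 :=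
          Finset.sum_le_sum (fun i _ => h1 i)
      _ = ((n : ℝ) + 1) * (C * θ ^ n) ^ 2 := by
          rw [Finset.sum_const, Finset.card_univ, Fintype.card_fin, nsmul_eq_mul]
          push_cast
          ring
      _ ≤ ((n : ℝ) + 1) ^ 2 * (C * θ ^ n) ^ 2 := by
          refine mul_le_mul_of_nonneg_right ?_ (sq_nonneg _)
          have : (0 : ℝ) ≤ n := Nat.cast_nonneg _
          nlinarith
      _ = (((n : ℝ) + 1) * C * θ ^ n) ^ 2 := by ring
  have hprod : ∏ j : Fin n, Real.sqrt (∑ i, B i j.succ ^ 2) ≤ ∏ j ∈ Finset.range n, r j := by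
    rw [← Fin.prod_univ_eq_prod_range r n]
    refine Finset.prod_le_prod (fun j _ => Real.sqrt_nonneg _) (fun j _ => ?_)
    refine Real.sqrt_le_sqrt ?_
    have h1 := hcol n j
    calc ∑ i, B i j.succ ^ 2 = ∑ i : Fin (n + 1), η ((i : ℕ) + (j : ℕ)) ^ 2 :=
          Finset.sum_congr rfl (fun i _ => by rw [hBs])
      _ ≤ R j := h1
  have hfin : |B.det| < 1 := by
    refine lt_of_le_of_lt (hadamard B) ?_
    rw [Fin.prod_univ_succ]
    refine lt_of_le_of_lt ?_ (hN n hn)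
    exact mul_le_mul hcol0 hprod (Finset.prod_nonneg (fun j _ => Real.sqrt_nonneg _))
      (by positivity)
  rw [← hdet, ← hcast, ← Int.cast_abs] at hfin
  have h2 : |M.det| < 1 := by exact_mod_cast hfin
  exact Int.abs_lt_one_iff.1 h2

end Forcing.DZ
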