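import Mathlib

/-!
# Row H4 (helper3): the number is an algebraic integer (Fatou's lemma by the determinant trick)

PROOF IN WORDS. Let `d = U.natDegree`. `hrec` says `(U·a) = 0`: `a (n+d) = -∑ i<d, U_i a (n+i)` in `ℚ`.
Let `M` be the `ℤ`-submodule of the functions `ℕ → ℤ` spanned by all the shifts `n ↦ a (n+k)`. Every
element of `M` satisfies the recurrence, so it is determined by its first `d` values: the restriction
`M → (Fin d → ℤ)` is injective, so `M` is a finitely generated `ℤ`-module (submodule of a Noetherian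
module). The shift `σ` maps `M` to `M`. By `LinearMap.exists_monic_and_aeval_eq_zero` there is a monic
`g ∈ ℤ[X]` with `g(σ) = 0` on `M`, in particular `∑ i, g_i a (n+i) = 0` for all `n`. Now
`a j = l θ^j - ε j` with `ε j → 0` (`hs`), so `l θ^n g(θ) = ∑ i, g_i ε (n+i) → 0` (`n → ∞`), whereas
`|l θ^n| ≥ |l|`: so `g(θ) = 0`, and `g` is monic: `IsIntegral ℤ θ`.
-/

open Polynomial

namespace Forcing.DZ

/-- the shift of integer sequences -/
private def H4_sh : (ℕ → ℤ) →ₗ[ℤ] (ℕ → ℤ) where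
  toFun f := fun n => f (n + 1)
  map_add' _ _ := rfl
  map_smul' _ _ := rfl

/-- the first terms -/
private def H4_res (d : ℕ) : (ℕ → ℤ) →ₗ[ℤ] (Fin d → ℤ) where
  toFun f := fun i => f i
  map_add' _ _ := rfl
  map_smul' _ _ := rfl

private def H4_M (a : ℕ → ℤ) : Submodule ℤ (ℕ → ℤ) := Submodule.span ℤ (Set.range fun k : ℕ => fun n : ℕ => a (n + k))

private theorem H4_rec (a : ℕ → ℤ) (U : ℚ[X])
    (hrec : ∀ n, ∑ i ∈ Finset.range (U.natDegree + 1), U.coeff i * (a (n + i) : ℚ) = 0) (f : ℕ → ℤ) (hf : f ∈ H4_M a) :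
    ∀ n, ∑ i ∈ Finset.range (U.natDegree + 1), U.coeff i * (f (n + i) : ℚ) = 0 := by
  refine Submodule.span_induction (p := fun f _ => ∀ n, ∑ i ∈ Finset.range (U.natDegree + 1), U.coeff i * (f (n + i) : ℚ) = 0)
    ?_ ?_ ?_ ?_ hf
  · rintro _ ⟨k, rfl⟩ n
    have h := hrec (n + k)
    rw [← h]
    refine Finset.sum_congr rfl fun i _ => ?_
    have : n + k + i = n + i + k := by ring
    rw [this]
  · intro n
    simp
  · intro f g _ _ hf hg n
    have : ∑ i ∈ Finset.range (U.natDegree + 1), U.coeff i * (((f + g) (n + i) : ℤ) : ℚ) =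
        ∑ i ∈ Finset.range (U.natDegree + 1), U.coeff i * (f (n + i) : ℚ) +
        ∑ i ∈ Finset.range (U.natDegree + 1), U.coeff i * (g (n + i) : ℚ) := by
      rw [← Finset.sum_add_distrib]
      refine Finset.sum_congr rfl fun i _ => ?_
      rw [Pi.add_apply]
      push_cast
      ring
    rw [this, hf n, hg n, add_zero]
  · intro c f _ hf n
    have : ∑ i ∈ Finset.range (U.natDegree + 1), U.coeff i * (((c • f) (n + i) : ℤ) : ℚ) =
        c * ∑ i ∈ Finset.range (U.natDegree + 1), U.coeff i * (f (n + i) : ℚ) := by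
      rw [Finset.mul_sum]
      refine Finset.sum_congr rfl fun i _ => ?_
      rw [Pi.smul_apply, smul_eq_mul]
      push_cast
      ring
    rw [this, hf n, mul_zero]

private theorem H4_inj (a : ℕ → ℤ) (U : ℚ[X]) (hU : U.Monic)
    (hrec : ∀ n, ∑ i ∈ Finset.range (U.natDegree + 1), U.coeff i * (a (n + i) : ℚ) = 0) :
    Function.Injective ((H4_res U.natDegree).comp (H4_M a).subtype) := by
  rw [← LinearMap.ker_eq_bot, LinearMap.ker_eq_bot']
  rintro ⟨f, hf⟩ h0
  have h1 : ∀ i : ℕ, i < U.natDegree → f i = 0 := by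
    intro i hi
    exact congrFun h0 ⟨i, hi⟩
  have h2 := H4_rec a U hrec f hf
  have h3 : ∀ n : ℕ, f n = 0 := by
    intro n
    induction n using Nat.strong_induction_on with
    | _ n ih =>
      by_cases hn : n < U.natDegree
      · exact h1 n hn
      · obtain ⟨m, rfl⟩ := Nat.exists_eq_add_of_le (not_lt.mp hn)
        have h4 := h2 m
        rw [Finset.sum_range_succ, Finset.sum_eq_zero, zero_add] at h4
        · have h5 : U.coeff U.natDegree = 1 := hU
          rw [h5, one_mul] at h4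
          rw [add_comm]
          exact_mod_cast h4
        · intro i hi
          rw [Finset.mem_range] at hi
          rw [ih (m + i) (by omega)]
          simp
  apply Subtype.ext
  funext n
  exact h3 n

private theorem H4_map (a : ℕ → ℤ) : ∀ f ∈ H4_M a, H4_sh f ∈ H4_M a := by
  intro f hf
  refine Submodule.span_induction (p := fun f _ => H4_sh f ∈ H4_M a) ?_ ?_ ?_ ?_ hf
  · rintro _ ⟨k, rfl⟩
    refine Submodule.subset_span ⟨k + 1, ?_⟩
    funext n
    show a (n + (k + 1)) = a (n + 1 + k)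
    congr 1
    ring
  · rw [map_zero]
    exact Submodule.zero_mem _
  · intro f g _ _ hf hg
    rw [map_add]
    exact Submodule.add_mem _ hf hg
  · intro c f _ hf
    rw [map_smul]
    exact Submodule.smul_mem _ c hf

private theorem H4_int (a : ℕ → ℤ) (U : ℚ[X]) (hU : U.Monic)
    (hrec : ∀ n, ∑ i ∈ Finset.range (U.natDegree + 1), U.coeff i * (a (n + i) : ℚ) = 0) :
    ∃ g : ℤ[X], g.Monic ∧ ∀ n, ∑ i ∈ Finset.range (g.natDegree + 1), g.coeff i * a (n + i) = 0 := by
  have hfin : Module.Finite ℤ (H4_M a) :=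
    Module.Finite.of_injective ((H4_res U.natDegree).comp (H4_M a).subtype) (H4_inj a U hU hrec)
  let s : Module.End ℤ (H4_M a) := H4_sh.restrict (H4_map a)
  obtain ⟨g, hg, hg0⟩ := LinearMap.exists_monic_and_aeval_eq_zero ℤ s
  refine ⟨g, hg, fun n => ?_⟩
  have hpow : ∀ (i : ℕ) (f : H4_M a) (n : ℕ), (((s ^ i) f : H4_M a) : ℕ → ℤ) n = (f : ℕ → ℤ) (n + i) := by
    intro i
    induction i with
    | zero =>
      intro f n
      simp
    | succ i ih =>
      intro f n
      rw [pow_succ, Module.End.mul_apply, ih (s f) n]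
      show (f : ℕ → ℤ) (n + i + 1) = (f : ℕ → ℤ) (n + (i + 1))
      rfl
  have ha : a ∈ H4_M a := Submodule.subset_span ⟨0, rfl⟩
  have h1 := congrArg (fun F : Module.End ℤ (H4_M a) => ((F ⟨a, ha⟩ : H4_M a) : ℕ → ℤ) n) hg0
  simp only [LinearMap.zero_apply] at h1
  rw [Polynomial.aeval_eq_sum_range] at h1
  have h2 : (((∑ i ∈ Finset.range (g.natDegree + 1), g.coeff i • s ^ i) ⟨a, ha⟩ : H4_M a) : ℕ → ℤ) n =
      ∑ i ∈ Finset.range (g.natDegree + 1), g.coeff i * a (n + i) := by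
    rw [LinearMap.sum_apply, Submodule.coe_sum, Finset.sum_apply]
    refine Finset.sum_congr rfl fun i _ => ?_
    rw [LinearMap.smul_apply, Submodule.coe_smul, Pi.smul_apply, smul_eq_mul, hpow i ⟨a, ha⟩ n]
  rw [← h2]
  exact h1

theorem integral_of_rec {θ l : ℝ} (hθ : 1 < θ) (hl : l ≠ 0) (a : ℕ → ℤ)
    (hs : Summable fun j : ℕ => (l * θ ^ j - a j) ^ 2) (U : ℚ[X]) (hU : U.Monic)
    (hrec : ∀ n, ∑ i ∈ Finset.range (U.natDegree + 1), U.coeff i * (a (n + i) : ℚ) = 0) :
    IsIntegral ℤ θ := by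
  obtain ⟨g, hg, hg0⟩ := H4_int a U hU hrec
  refine ⟨g, hg, ?_⟩
  have hε : Filter.Tendsto (fun j : ℕ => l * θ ^ j - a j) Filter.atTop (nhds 0) := by
    refine (tendsto_zero_iff_abs_tendsto_zero _).mpr ?_
    have h1 := (hs.tendsto_atTop_zero).sqrt
    rw [Real.sqrt_zero] at h1
    refine h1.congr fun j => ?_
    exact Real.sqrt_sq_eq_abs _
  have h2 : Filter.Tendsto (fun n : ℕ => ∑ i ∈ Finset.range (g.natDegree + 1),
      (g.coeff i : ℝ) * (l * θ ^ (n + i) - a (n + i))) Filter.atTop (nhds 0) := by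
    have h3 : (0 : ℝ) = ∑ i ∈ Finset.range (g.natDegree + 1), (g.coeff i : ℝ) * 0 := by simp
    rw [h3]
    refine tendsto_finsetSum _ fun i _ => ?_
    exact ((Filter.tendsto_add_atTop_iff_nat i).mpr hε).const_mul _
  have h4 : ∀ n : ℕ, ∑ i ∈ Finset.range (g.natDegree + 1), (g.coeff i : ℝ) * (l * θ ^ (n + i) - a (n + i)) =
      l * θ ^ n * eval₂ (algebraMap ℤ ℝ) θ g := by
    intro n
    rw [Polynomial.eval₂_eq_sum_range, Finset.mul_sum]
    have h5 : ∑ i ∈ Finset.range (g.natDegree + 1), (g.coeff i : ℝ) * (a (n + i) : ℝ) = 0 := by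
      exact_mod_cast hg0 n
    have h6 : ∑ i ∈ Finset.range (g.natDegree + 1), (g.coeff i : ℝ) * (l * θ ^ (n + i) - a (n + i)) =
        ∑ i ∈ Finset.range (g.natDegree + 1), (g.coeff i : ℝ) * (l * θ ^ (n + i)) -
        ∑ i ∈ Finset.range (g.natDegree + 1), (g.coeff i : ℝ) * (a (n + i) : ℝ) := by
      rw [← Finset.sum_sub_distrib]
      exact Finset.sum_congr rfl fun i _ => by ring
    rw [h6, h5, sub_zero]
    refine Finset.sum_congr rfl fun i _ => ?_
    rw [pow_add]
    simp only [eq_intCast]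
    ring
  by_contra hne
  have h7 : 0 < |l| * |eval₂ (algebraMap ℤ ℝ) θ g| := mul_pos (abs_pos.mpr hl) (abs_pos.mpr hne)
  have h8 : Filter.Tendsto (fun n : ℕ => |l * θ ^ n * eval₂ (algebraMap ℤ ℝ) θ g|) Filter.atTop (nhds 0) := by
    have h9 := (h2.congr h4).abs
    rwa [abs_zero] at h9
  have h10 : |l| * |eval₂ (algebraMap ℤ ℝ) θ g| ≤ 0 := by
    refine ge_of_tendsto' h8 fun n => ?_
    rw [abs_mul, abs_mul]
    have h11 : 1 ≤ |θ ^ n| := by
      rw [abs_of_nonneg (by positivity)]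
      exact one_le_pow₀ hθ.le
    refine mul_le_mul_of_nonneg_right ?_ (abs_nonneg _)
    nlinarith [abs_nonneg l]
  linarith

end Forcing.DZ
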