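import Pool.Agent.Lib.MP_c80ac4_an.HM.Defs

/-!
# Row H5 (helper3): the other roots lie in the open unit disc

`IsPisot θ` is `1 < θ ∧ ∃ p : ℤ[X], p.Monic ∧ aeval θ p = 0 ∧ ∀ z : ℂ, aeval z p = 0 → z ≠ θ → ‖z‖ < 1`.

PROOF IN WORDS. Let `p = minpoly ℤ θ` (monic, `p(θ) = 0`, irreducible over `ℚ` after mapping:
`minpoly.isIntegrallyClosed_eq_field_fractions'`). `b n = ∑ i, p_i a (n+i)` is an integer and
`= l θ^n p(θ) - ∑ i, p_i ε (n+i) → 0`, so `b n = 0` for `n ≥ n1`. Let `z ≠ θ` be a complex root of `p`.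
Let `K = AdjoinRoot P`, `P = minpoly ℚ θ` (or `K = ℚ⟮θ⟯` and `τ : K →ₐ[ℚ] ℂ` with `θ ↦ z`), `t` the root in
`K`. Over `K`: `P = (X - t) R_t`, `R_t = ∑ r_i X^i`, `r_i ∈ K` (`Polynomial.mul_divByMonic_eq_iff_isRoot` or
`P /ₘ (X - C t)`). Put `B n = ∑ i, r_i a (n+i) ∈ K`. (a) The recurrence gives `B (n+1) = t B n` for
`n ≥ n1` (because `P = (X - t) R_t` and `∑ p_i a (n+i) = 0`). (b) The image of `B n` under `K → ℝ`, `t ↦ θ` is
`R_θ(θ) l θ^n - ∑ r_i ε (n+i)` with `R_θ(θ) = P'(θ) ≠ 0` (separable), which is not `0` for large `n`; so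
`B n ≠ 0` for some `n = n2 ≥ n1`; so its image `β` under `K → ℂ`, `t ↦ z` is not `0`, and by (a) the image
of `B (n2 + k)` is `β z^k`. (c) On the other hand the image of `B n` under `t ↦ z` is
`∑ i, R_z,i a (n+i) = l R_z(θ) θ^n - ∑ R_z,i ε (n+i)` with `P = (X - z) R_z` over `ℂ`, `P(θ) = 0`,
`θ ≠ z`, so `R_z(θ) = 0`: it is `-∑ R_z,i ε (n+i) → 0`. So `β z^k → 0`, `β ≠ 0`, hence `‖z‖ < 1`
(`tendsto_pow_atTop_nhds_zero_iff` for norms). Only `ε j → 0` is used.
-/

open Polynomial Filter Topology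

namespace Forcing.DZ

/-- The linear functional `F ↦ ∑ i, F_i a (n+i)`. -/
private noncomputable def h5L (d : ℕ) (a : ℕ → ℤ) (n : ℕ) (F : ℂ[X]) : ℂ :=
  ∑ i ∈ Finset.range (d + 1), F.coeff i * (a (n + i) : ℂ)

private theorem h5_rec (d : ℕ) (a : ℕ → ℤ) (n : ℕ) (R : ℂ[X]) (w : ℂ) (hR : R.coeff d = 0) :
    h5L d a n (R * (X - C w)) = h5L d a (n + 1) R - w * h5L d a n R := by
  have e1 : ∀ i, (R * (X - C w)).coeff (i + 1) * (a (n + (i + 1)) : ℂ) =
      R.coeff i * (a (n + 1 + i) : ℂ) - w * (R.coeff (i + 1) * (a (n + (i + 1)) : ℂ)) := by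
    intro i
    rw [coeff_mul_X_sub_C, show n + 1 + i = n + (i + 1) by ring]
    ring
  have e2 : (R * (X - C w)).coeff 0 = -(R.coeff 0 * w) := by
    simp [mul_coeff_zero]
  have e3 : h5L d a (n + 1) R = ∑ i ∈ Finset.range d, R.coeff i * (a (n + 1 + i) : ℂ) := by
    unfold h5L
    rw [Finset.sum_range_succ, hR, zero_mul, add_zero]
  have e4 : h5L d a n R = ∑ i ∈ Finset.range d, R.coeff (i + 1) * (a (n + (i + 1)) : ℂ) +
      R.coeff 0 * (a (n + 0) : ℂ) := by
    unfold h5L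
    rw [Finset.sum_range_succ']
  rw [e3, e4]
  unfold h5L
  rw [Finset.sum_range_succ', Finset.sum_congr rfl (fun i _ => e1 i), e2,
    Finset.sum_sub_distrib, ← Finset.mul_sum]
  ring

private theorem h5_val (d : ℕ) (a : ℕ → ℤ) (θ l : ℝ) (n : ℕ) (F : ℂ[X])
    (hF : F.natDegree < d + 1) :
    h5L d a n F = (l : ℂ) * (θ : ℂ) ^ n * F.eval (θ : ℂ) -
      ∑ i ∈ Finset.range (d + 1), F.coeff i * ((l * θ ^ (n + i) - a (n + i) : ℝ) : ℂ) := by
  unfold h5L
  rw [eval_eq_sum_range' hF, Finset.mul_sum, ← Finset.sum_sub_distrib]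
  refine Finset.sum_congr rfl fun i _ => ?_
  push_cast
  rw [pow_add]
  ring

private theorem h5_err (d : ℕ) (a : ℕ → ℤ) (θ l : ℝ)
    (hs : Summable fun j : ℕ => (l * θ ^ j - a j) ^ 2) (F : ℂ[X]) :
    Tendsto (fun n => ∑ i ∈ Finset.range (d + 1),
      F.coeff i * ((l * θ ^ (n + i) - a (n + i) : ℝ) : ℂ)) atTop (𝓝 0) := by
  have h1 : Tendsto (fun j : ℕ => l * θ ^ j - a j) atTop (𝓝 0) := by
    have h2 := hs.tendsto_atTop_zero
    have h3 := (Real.continuous_sqrt.tendsto 0).comp h2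
    rw [Real.sqrt_zero] at h3
    rw [tendsto_zero_iff_abs_tendsto_zero]
    refine h3.congr fun j => ?_
    simp only [Function.comp]
    rw [Real.sqrt_sq_eq_abs]
  have h2 : Tendsto (fun j : ℕ => ((l * θ ^ j - a j : ℝ) : ℂ)) atTop (𝓝 0) := by
    have h3 := (Complex.continuous_ofReal.tendsto 0).comp h1
    rw [Complex.ofReal_zero] at h3
    exact h3
  have h3 : ∀ i ∈ Finset.range (d + 1), Tendsto
      (fun n => F.coeff i * ((l * θ ^ (n + i) - a (n + i) : ℝ) : ℂ)) atTop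
        (𝓝 (F.coeff i * 0)) := by
    intro i _
    exact (h2.comp (tendsto_add_atTop_nat i)).const_mul _
  have h4 := tendsto_finsetSum _ h3
  simpa only [mul_zero, Finset.sum_const_zero] using h4

theorem pisot_of_integral {θ l : ℝ} (hθ : 1 < θ) (hl : l ≠ 0) (a : ℕ → ℤ)
    (hs : Summable fun j : ℕ => (l * θ ^ j - a j) ^ 2) (hint : IsIntegral ℤ θ) : IsPisot θ := by
  classical
  set p : ℤ[X] := minpoly ℤ θ with hp
  have hpm : p.Monic := minpoly.monic hint
  have hp0 : aeval θ p = 0 := minpoly.aeval ℤ θ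
  refine ⟨hθ, p, hpm, hp0, fun z hz hzθ => ?_⟩
  set P : ℚ[X] := minpoly ℚ θ with hP
  have hPp : P = p.map (algebraMap ℤ ℚ) := minpoly.isIntegrallyClosed_eq_field_fractions' ℚ hint
  have hintQ : IsIntegral ℚ θ := hint.tower_top
  have hirr : Irreducible P := minpoly.irreducible hintQ
  have hPm : P.Monic := minpoly.monic hintQ
  set d : ℕ := p.natDegree with hd
  set Pc : ℂ[X] := p.map (algebraMap ℤ ℂ) with hPc
  have hPcP : Pc = P.map (algebraMap ℚ ℂ) := by
    rw [hPp, Polynomial.map_map, ← IsScalarTower.algebraMap_eq ℤ ℚ ℂ]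
  have hdc : Pc.natDegree = d := hpm.natDegree_map _
  have hθc0 : aeval (θ : ℂ) p = 0 := by
    have h1 := aeval_algebraMap_apply ℂ θ p
    rw [hp0, map_zero] at h1
    exact h1
  have hθc : Pc.eval (θ : ℂ) = 0 := by
    rw [hPc, eval_map_algebraMap]
    exact hθc0
  have hzc : Pc.eval z = 0 := by
    rw [hPc, eval_map_algebraMap]
    exact hz
  have hθP : aeval (θ : ℂ) P = 0 := by
    rw [← eval_map_algebraMap, ← hPcP]
    exact hθc
  have hzP : aeval z P = 0 := by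
    rw [← eval_map_algebraMap, ← hPcP]
    exact hzc
  -- the quotients
  let R : ℂ → ℂ[X] := fun w => Pc /ₘ (X - C w)
  have hR : ∀ w, Pc.eval w = 0 → R w * (X - C w) = Pc := fun w hw => by
    rw [mul_comm]
    exact mul_divByMonic_eq_iff_isRoot.2 hw
  have hRd : ∀ w, (R w).coeff d = 0 := fun w => by
    show (Pc /ₘ (X - C w)).coeff d = 0
    rw [coeff_divByMonic_X_sub_C, hdc, Finset.Icc_eq_empty (by omega), Finset.sum_empty]
  have hRn : ∀ w, (R w).natDegree < d + 1 := fun w => by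
    show (Pc /ₘ (X - C w)).natDegree < d + 1
    rw [natDegree_divByMonic _ (monic_X_sub_C w), hdc]
    omega
  -- the integers `∑ p_i a (n+i)` vanish from some point on
  have hb : ∀ᶠ n in atTop, h5L d a n Pc = 0 := by
    have h1 := h5_err d a θ l hs Pc
    have h2 := h1.norm
    rw [norm_zero] at h2
    filter_upwards [h2.eventually (gt_mem_nhds one_pos)] with n hn
    have h3 := h5_val d a θ l n Pc (by rw [hdc]; omega)
    rw [hθc, mul_zero, zero_sub] at h3
    have h4 : ‖h5L d a n Pc‖ < 1 := by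
      rw [h3, norm_neg]
      exact hn
    have h5 : h5L d a n Pc = ((∑ i ∈ Finset.range (d + 1), p.coeff i * a (n + i) : ℤ) : ℂ) := by
      unfold h5L
      push_cast
      refine Finset.sum_congr rfl fun i _ => ?_
      rw [hPc, coeff_map, algebraMap_int_eq, eq_intCast]
    rw [h5, Complex.norm_intCast] at h4
    have h6 : |∑ i ∈ Finset.range (d + 1), p.coeff i * a (n + i)| < 1 := by
      exact_mod_cast h4
    rw [h5, Int.abs_lt_one_iff.1 h6, Int.cast_zero]
  -- nonvanishing at `θ`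
  have hRθ : (R (θ : ℂ)).eval (θ : ℂ) ≠ 0 := by
    intro h0
    have h1 : derivative Pc = derivative (R (θ : ℂ)) * (X - C (θ : ℂ)) + R (θ : ℂ) := by
      conv_lhs => rw [← hR _ hθc]
      rw [derivative_mul, derivative_sub, derivative_X, derivative_C]
      ring
    have h2 : (derivative Pc).eval (θ : ℂ) = 0 := by
      rw [h1, eval_add, eval_mul, h0]
      simp
    refine (hirr.separable.aeval_derivative_ne_zero hθP) ?_
    rw [← eval_map_algebraMap, ← derivative_map, ← hPcP]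
    exact h2
  have hne : ∀ᶠ n in atTop, h5L d a n (R (θ : ℂ)) ≠ 0 := by
    have h1 := (h5_err d a θ l hs (R (θ : ℂ))).norm
    rw [norm_zero] at h1
    have hc : 0 < |l| * ‖(R (θ : ℂ)).eval (θ : ℂ)‖ :=
      mul_pos (abs_pos.2 hl) (norm_pos_iff.2 hRθ)
    filter_upwards [h1.eventually (gt_mem_nhds hc)] with n hn h0
    have h3 := h5_val d a θ l n (R (θ : ℂ)) (hRn _)
    rw [h0] at h3
    have h4 := sub_eq_zero.1 h3.symm
    rw [← h4, norm_mul, norm_mul, norm_pow, Complex.norm_real, Complex.norm_real,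
      Real.norm_eq_abs, Real.norm_eq_abs, abs_of_pos (by linarith : (0 : ℝ) < θ)] at hn
    have h5 : 1 ≤ θ ^ n := one_le_pow₀ hθ.le
    have h6 : |l| * ‖(R (θ : ℂ)).eval (θ : ℂ)‖ ≤
        |l| * θ ^ n * ‖(R (θ : ℂ)).eval (θ : ℂ)‖ :=
      mul_le_mul_of_nonneg_right (le_mul_of_one_le_right (abs_nonneg l) h5) (norm_nonneg _)
    linarith
  obtain ⟨n1, hn1⟩ := eventually_atTop.1 (hb.and hne)
  -- the common polynomial
  let Q : ℚ[X] := ∑ i ∈ Finset.range (d + 1), C ((a (n1 + i) : ℤ) : ℚ) *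
    ∑ j ∈ Finset.Icc (i + 1) d, X ^ (j - (i + 1)) * C (P.coeff j)
  have hQ : ∀ w : ℂ, aeval w Q = h5L d a n1 (R w) := fun w => by
    show aeval w (∑ i ∈ Finset.range (d + 1), C ((a (n1 + i) : ℤ) : ℚ) *
      ∑ j ∈ Finset.Icc (i + 1) d, X ^ (j - (i + 1)) * C (P.coeff j)) = _
    unfold h5L
    rw [map_sum]
    refine Finset.sum_congr rfl fun i _ => ?_
    show _ = (Pc /ₘ (X - C w)).coeff i * _
    rw [coeff_divByMonic_X_sub_C, hdc, map_mul, map_sum, aeval_C, mul_comm]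
    congr 1
    · refine Finset.sum_congr rfl fun j _ => ?_
      rw [map_mul, map_pow, aeval_X, aeval_C, hPcP, coeff_map]
  have hβ : h5L d a n1 (R z) ≠ 0 := by
    intro h0
    have h1 : aeval z Q = 0 := by rw [hQ, h0]
    have h2 : P = minpoly ℚ z := minpoly.eq_of_irreducible_of_monic hirr hzP hPm
    have h3 : P ∣ Q := by
      rw [h2]
      exact minpoly.dvd ℚ z h1
    have h4 : aeval (θ : ℂ) Q = 0 := by
      obtain ⟨S, hS⟩ := h3
      rw [hS, map_mul, hθP, zero_mul]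
    rw [hQ] at h4
    exact (hn1 n1 le_rfl).2 h4
  -- geometric progression
  have hgeo : ∀ k, h5L d a (n1 + k) (R z) = z ^ k * h5L d a n1 (R z) := by
    intro k
    induction k with
    | zero => simp
    | succ k ih =>
      have h1 := h5_rec d a (n1 + k) (R z) z (hRd z)
      rw [hR z hzc, (hn1 (n1 + k) (by omega)).1] at h1
      rw [← add_assoc, sub_eq_zero.1 h1.symm, ih, pow_succ]
      ring
  have hRz : (R z).eval (θ : ℂ) = 0 := by
    have h1 := congrArg (eval (θ : ℂ)) (hR z hzc)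
    rw [eval_mul, hθc, eval_sub, eval_X, eval_C] at h1
    rcases mul_eq_zero.1 h1 with h2 | h2
    · exact h2
    · exact absurd (sub_eq_zero.1 h2).symm hzθ
  have hlim : Tendsto (fun k => ‖h5L d a (n1 + k) (R z)‖) atTop (𝓝 0) := by
    have h1 := (h5_err d a θ l hs (R z)).norm
    rw [norm_zero] at h1
    have h2 := h1.comp (tendsto_add_atTop_nat n1)
    refine h2.congr fun k => ?_
    have h3 := h5_val d a θ l (n1 + k) (R z) (hRn z)
    rw [hRz, mul_zero, zero_sub] at h3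
    rw [h3, norm_neg, add_comm n1 k]
    rfl
  by_contra hcon
  rw [not_lt] at hcon
  have hpos : 0 < ‖h5L d a n1 (R z)‖ := norm_pos_iff.2 hβ
  obtain ⟨k, hk⟩ := (hlim.eventually (gt_mem_nhds hpos)).exists
  rw [hgeo k, norm_mul, norm_pow] at hk
  have h1 : 1 ≤ ‖z‖ ^ k := one_le_pow₀ hcon
  have h2 : ‖h5L d a n1 (R z)‖ ≤ ‖z‖ ^ k * ‖h5L d a n1 (R z)‖ :=
    le_mul_of_one_le_left hpos.le h1
  linarith

end Forcing.DZ
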