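import Pool.Agent.Lib.MP_c80ac4_an.DZ.H2
import Pool.Agent.Lib.MP_c80ac4_an.DZ.H3
import Pool.Agent.Lib.MP_c80ac4_an.DZ.H4
import Pool.Agent.Lib.MP_c80ac4_an.DZ.H5

/-! # Row H6 (helper3): Pisot's theorem -/

open Polynomial

namespace Forcing.DZ

/-- **Pisot's theorem.** -/
theorem pisot {θ l : ℝ} (hθ : 1 < θ) (hl : l ≠ 0)
    (hs : Summable fun j : ℕ => (l * θ ^ j - round (l * θ ^ j)) ^ 2) : IsPisot θ := by
  set a : ℕ → ℤ := fun j => round (l * θ ^ j) with ha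
  obtain ⟨N, hN⟩ := det_zero hθ a hs
  obtain ⟨U, hU, hrec⟩ := kronecker (F := ℚ) (fun j => (a j : ℚ)) N (fun n hn => by
    have h1 := hN n hn
    have h2 := congrArg (Int.cast : ℤ → ℚ) h1
    rw [Int.cast_zero, Int.cast_det] at h2
    rw [← h2]
    congr 1)
  exact pisot_of_integral hθ hl a hs (integral_of_rec hθ hl a hs U hU hrec)

end Forcing.DZ
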