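import Pool.Agent.Lib.MP_c80ac4_an.DZ.Fin
import Pool.Agent.Lib.MP_c80ac4_an.DZ.H6
import Pool.Agent.Lib.MP_c80ac4_an.HM.Pisot
import Pool.Agent.Lib.MP_c80ac4_an.Local.ThinEx

/-! # The dichotomy: digit sets and Pisot numbers -/

namespace Forcing.DZ

open Forcing.Ratio Forcing.HM Polynomial Metric

/-- **Digit sets of numbers that are not Pisot numbers.** -/
theorem sidonOn_of_not_pisot {θ b c : ℝ} (hθ : 1 < θ) (h : ¬ IsPisot θ) (hbc : b ≠ c) :
    SidonOn (e '' digitSet θ {b, c}) :=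
  sidonOn_digit hθ hbc fun _ hl hs => h (pisot hθ hl hs)

/-- Power images of Sidon sets. -/
theorem sidonOn_pow {E : Set ℂ} (h : SidonOn E) {M : ℕ} (hM : 1 ≤ M) :
    SidonOn ((fun z => z ^ M) '' E) := by
  classical
  intro q hq
  obtain ⟨N, C, hNC⟩ := h q hq
  refine ⟨N, C, fun s c B hs hB hb => ?_⟩
  have hinj : ∀ x ∈ s, ∀ y ∈ s, M * x = M * y → x = y := fun x _ y _ hxy =>
    Nat.eq_of_mul_eq_mul_left hM hxy
  have hM0 : (0 : ℝ) < M := by exact_mod_cast hM
  have h1 := hNC (s.image fun n => M * n) (fun k => c (k / M)) B ?_ hB ?_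
  · rw [Finset.sum_image hinj] at h1
    have h2 : ∑ n ∈ s, ‖c (M * n / M)‖ = ∑ n ∈ s, ‖c n‖ :=
      Finset.sum_congr rfl fun n _ => by rw [Nat.mul_div_cancel_left n hM]
    rw [h2] at h1
    exact h1
  · constructor
    · intro m hm
      obtain ⟨n, hn, rfl⟩ := Finset.mem_image.1 (Finset.mem_coe.1 hm)
      have h3 := hs.1 n hn
      refine ⟨Nat.mul_pos hM h3.1, h3.2.trans (Nat.le_mul_of_pos_left n hM)⟩
    · intro m hm n hn hmn
      obtain ⟨m', hm', rfl⟩ := Finset.mem_image.1 (Finset.mem_coe.1 hm)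
      obtain ⟨n', hn', rfl⟩ := Finset.mem_image.1 (Finset.mem_coe.1 hn)
      have h3 := hs.2 m' hm' n' hn' (lt_of_mul_lt_mul_left hmn (Nat.zero_le _))
      push_cast
      calc q * (M * m' : ℝ) = M * (q * m') := by ring
        _ ≤ M * n' := by gcongr
  · intro z hz
    rw [Finset.sum_image hinj]
    have h2 : ∑ n ∈ s, c (M * n / M) * z ^ (M * n) = ∑ n ∈ s, c n * (z ^ M) ^ n :=
      Finset.sum_congr rfl fun n _ => by rw [Nat.mul_div_cancel_left n hM, pow_mul]
    rw [h2]
    exact hb _ ⟨z, hz, rfl⟩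

/-- a common denominator -/
theorem exists_denom {θ : ℝ} (D : Finset ℝ) (hD : ∀ d ∈ D, ∃ p : ℚ[X], aeval θ p = d) :
    ∃ M : ℕ, 1 ≤ M ∧ ∀ d ∈ D, ∃ p : ℤ[X], aeval θ p = M * d := by
  classical
  induction D using Finset.induction_on with
  | empty => exact ⟨1, le_rfl, by simp⟩
  | insert a D ha ih =>
    obtain ⟨M, hM, h⟩ := ih fun d hd => hD d (Finset.mem_insert_of_mem hd)
    obtain ⟨p, hp⟩ := hD a (Finset.mem_insert_self _ _)
    obtain ⟨k, hk⟩ := IsLocalization.exist_integer_multiples_of_finset (nonZeroDivisors ℤ)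
      (p.support.image p.coeff)
    have hk0 : (k : ℤ) ≠ 0 := nonZeroDivisors.coe_ne_zero k
    set K : ℕ := (k : ℤ).natAbs with hK
    have hK1 : 1 ≤ K := Int.natAbs_pos.2 hk0
    have hp' : ∃ P : ℤ[X], P.map (algebraMap ℤ ℚ) = C ((k : ℤ) : ℚ) * p := by
      have h1 : C ((k : ℤ) : ℚ) * p ∈ Polynomial.lifts (algebraMap ℤ ℚ) := by
        rw [Polynomial.lifts_iff_coeff_lifts]
        intro n
        rw [coeff_C_mul]
        by_cases hn : p.coeff n = 0
        · rw [hn, mul_zero]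
          exact ⟨0, by simp⟩
        · obtain ⟨y, hy⟩ := hk (p.coeff n) (Finset.mem_image_of_mem _
            (Polynomial.mem_support_iff.2 hn))
          refine ⟨y, ?_⟩
          rw [hy, Algebra.smul_def]
          simp
      obtain ⟨P, hP⟩ := (Polynomial.mem_lifts _).1 h1
      exact ⟨P, hP⟩
    obtain ⟨P, hP⟩ := hp'
    have hPa : aeval θ P = (k : ℤ) * a := by
      have h2 := congrArg (aeval θ) hP
      rw [aeval_map_algebraMap, map_mul, aeval_C, hp] at h2
      rw [h2]
      simp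
    have hKa : ∃ P : ℤ[X], aeval θ P = K * a := by
      rcases Int.natAbs_eq (k : ℤ) with h3 | h3
      · refine ⟨P, ?_⟩
        rw [hPa, h3]
        simp [hK]
      · refine ⟨-P, ?_⟩
        rw [map_neg, hPa, h3]
        simp [hK]
    obtain ⟨P', hP'⟩ := hKa
    refine ⟨K * M, Nat.mul_pos hK1 hM, fun d hd => ?_⟩
    rcases Finset.mem_insert.1 hd with rfl | hd
    · refine ⟨C (M : ℤ) * P', ?_⟩
      rw [map_mul, aeval_C, hP']
      push_cast
      try simp only [eq_intCast, Int.cast_natCast]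
      ring
    · obtain ⟨P'', hP''⟩ := h d hd
      refine ⟨C (K : ℤ) * P'', ?_⟩
      rw [map_mul, aeval_C, hP'']
      push_cast
      try simp only [eq_intCast, Int.cast_natCast]
      ring

/-- **Digit sets of Pisot numbers.** -/
theorem not_sidonOn_of_pisot {θ : ℝ} (h : IsPisot θ) (D : Finset ℝ)
    (hD : ∀ d ∈ D, ∃ p : ℚ[X], aeval θ p = d) (hcard : (D.card : ℝ) < θ) {E : Set ℂ}
    (hE : E ⊆ e '' digitSet θ (D : Set ℝ)) : ¬ SidonOn E := by
  classical
  intro hS
  obtain ⟨M, hM, hMD⟩ := exists_denom D hD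
  set D' : Finset ℝ := D.image fun d => (M : ℝ) * d with hD'
  have hcard' : (D'.card : ℝ) < θ := lt_of_le_of_lt (by exact_mod_cast Finset.card_image_le) hcard
  obtain ⟨m, w, η, h1, h2, h3, h4⟩ := misses_pisot h D' (fun d hd => by
    obtain ⟨d', hd', rfl⟩ := Finset.mem_image.1 hd
    exact hMD d' hd') hcard'
  have hsub : (fun z => z ^ M) '' E ⊆ e '' digitSet θ (D' : Set ℝ) := by
    rintro _ ⟨z, hz, rfl⟩
    obtain ⟨x, ⟨d, hd, hx⟩, rfl⟩ := hE hz
    refine ⟨M * x, ⟨fun j => M * d j, fun j => ?_, ?_⟩, (e_pow M x).symm⟩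
    · exact Finset.mem_coe.2 (Finset.mem_image_of_mem _ (Finset.mem_coe.1 (hd j)))
    · have h5 := hx.mul_left (M : ℝ)
      refine h5.congr_fun ?_
      intro j
      ring
  refine not_misses h1 w h2 h3 (E := (fun z => z ^ M) '' E) ?_ (sidonOn_pow hS hM)
    fun κ R hκ => ?_
  · intro z hz
    obtain ⟨x, -, rfl⟩ := hsub hz
    simpa using norm_e x
  · obtain ⟨n, t, h5, h6, h7⟩ := h4 κ R hκ
    exact ⟨n, t, h5, h6, fun z hz => h7 z (hsub hz)⟩

/-- The Cantor set is closed. -/
theorem isClosed_cantor {θ : ℝ} (hθ : 1 < θ) : IsClosed (e '' digitSet θ {0, θ - 1}) := by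
  have hc : Continuous fun ω => e (EK.Sm θ ω) := EK.e_cont.comp (EK.Sm_cont hθ)
  have hcl : IsClosed (Set.range fun ω => e (EK.Sm θ ω)) := (isCompact_range hc).isClosed
  have heq : e '' digitSet θ {0, θ - 1} = Set.range fun ω => e (EK.Sm θ ω) := by
    ext z
    constructor
    · rintro ⟨x, ⟨d, hd, hx⟩, rfl⟩
      classical
      refine ⟨fun j => decide (d j = θ - 1), ?_⟩
      have h1 : ∀ j, EK.dig θ (decide (d j = θ - 1)) = d j := by
        intro j
        unfold EK.dig
        by_cases h : d j = θ - 1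
        · simp [h]
        · rcases hd j with h2 | h2
          · simp [h2] at h ⊢
            intro h3
            exact absurd h3 (by
              intro h4
              exact h (by linarith))
          · exact absurd h2 h
      have h2 := (EK.Sm_summable hθ fun j => decide (d j = θ - 1)).hasSum
      simp only [h1] at h2
      have h3 := hx.unique h2
      show e (EK.Sm θ _) = e x
      rw [h3]
      unfold EK.Sm
      simp only [h1]
    · rintro ⟨ω, rfl⟩
      refine ⟨EK.Sm θ ω, ⟨fun j => EK.dig θ (ω j), fun j => ?_, (EK.Sm_summable hθ ω).hasSum⟩,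
        rfl⟩
      show EK.dig θ (ω j) ∈ ({0, θ - 1} : Set ℝ)
      unfold EK.dig
      split_ifs
      · right
        rfl
      · left
        rfl
  rw [heq]
  exact hcl

/-- **The dichotomy for Cantor sets.** -/
theorem cantor_iff {θ : ℝ} (hθ : 2 < θ) :
    (∃ S : Set ℂ, S ⊆ ball 0 1 ∧ IsForcing S ∧
      closure S ∩ sphere 0 1 = e '' digitSet θ {0, θ - 1}) ↔ ¬ IsPisot θ := by
  have hsub : e '' digitSet θ {0, θ - 1} ⊆ sphere 0 1 := by
    rintro z ⟨x, -, rfl⟩
    simpa using norm_e x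
  constructor
  · rintro ⟨S, hS, hF, hE⟩ hp
    have h1 := sidonOn_of_forcing hS hF
    rw [hE] at h1
    refine not_sidonOn_of_pisot hp {0, θ - 1} ?_ ?_ (E := e '' digitSet θ {0, θ - 1}) ?_ h1
    · intro d hd
      rcases Finset.mem_insert.1 hd with rfl | hd
      · exact ⟨0, by simp⟩
      · rw [Finset.mem_singleton.1 hd]
        exact ⟨X - 1, by simp⟩
    · refine lt_of_le_of_lt ?_ hθ
      exact_mod_cast Finset.card_le_two
    · rw [Finset.coe_insert, Finset.coe_singleton]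
  · intro hp
    have h1 := sidonOn_of_not_pisot (b := 0) (c := θ - 1) (by linarith) hp (by linarith)
    refine ⟨radii (e '' digitSet θ {0, θ - 1}), radii_subset hsub, forcing_radii hsub h1, ?_⟩
    refine Set.Subset.antisymm (closure_radii_subset hsub (isClosed_cantor (by linarith))) ?_
    intro ζ hζ
    refine ⟨?_, hsub hζ⟩
    have hlim : Filter.Tendsto (fun t : ℝ => (t : ℂ) * ζ) (nhdsWithin 1 (Set.Iio 1)) (nhds ζ) := by
      have hc : Continuous fun t : ℝ => (t : ℂ) * ζ := by fun_prop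
      have := (hc.tendsto 1).mono_left (nhdsWithin_le_nhds (s := Set.Iio 1))
      simpa using this
    apply mem_closure_of_tendsto hlim
    filter_upwards [Ioo_mem_nhdsLT (zero_lt_one (α := ℝ))] with t ht
    exact ⟨t, ⟨ht.1.le, ht.2⟩, ζ, hζ, rfl⟩

end Forcing.DZ
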