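import Pool.Agent.Lib.MP_c80ac4_an.PI.EKFinal

/-! # Digit windows and biased digit measures -/

namespace Forcing.DZ

open Forcing.Ratio Finset

/-- the digit -/
def bt (b : Bool) : ℝ := if b then 1 else 0

/-- the sign of a digit -/
def sg (b : Bool) : ℝ := if b then -1 else 1

theorem abs_sg (b : Bool) : |sg b| = 1 := by
  unfold sg
  split_ifs <;> simp

/-- the shift by the two digits of a window -/
noncomputable def sh (θ D : ℝ) (j : ℕ) (w : Bool × Bool) : ℝ :=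
  D * (bt w.1 * θ + bt w.2) / (θ ^ 2) ^ (j + 1)

/-- expectation with respect to the biased digit measure -/
noncomputable def EE {V : Type*} [NormedAddCommGroup V] [NormedSpace ℝ V] (θ D ρ : ℝ)
    (α : ℕ → ℝ → ℝ) : ℕ → (ℝ → V) → V
  | 0, φ => φ 0
  | (j + 1), φ => EE θ D ρ α j (fun x => (1 / 4 : ℝ) • ∑ w : Bool × Bool,
      (1 + ρ * α j x * (sg w.1 * sg w.2)) • φ (x + sh θ D j w))

/-- the points reached by the digits -/
def Reach (θ D : ℝ) : ℕ → Set ℝ
  | 0 => {0}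
  | (j + 1) => {y | ∃ x ∈ Reach θ D j, ∃ w, y = x + sh θ D j w}

section
variable {V W : Type*} [NormedAddCommGroup V] [NormedSpace ℝ V] [NormedAddCommGroup W]
  [NormedSpace ℝ W] {θ D ρ : ℝ} {α : ℕ → ℝ → ℝ}

theorem EE_congr (j : ℕ) : ∀ {φ ψ : ℝ → V}, (∀ x ∈ Reach θ D j, φ x = ψ x) →
    EE θ D ρ α j φ = EE θ D ρ α j ψ := by
  induction j with
  | zero => exact fun h => h 0 rfl
  | succ j ih =>
    intro φ ψ h
    refine ih fun x hx => ?_
    congr 1
    refine Finset.sum_congr rfl fun w _ => ?_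
    rw [h _ ⟨x, hx, w, rfl⟩]

theorem EE_map (L : V →ₗ[ℝ] W) (j : ℕ) : ∀ (φ : ℝ → V),
    EE θ D ρ α j (fun x => L (φ x)) = L (EE θ D ρ α j φ) := by
  induction j with
  | zero => exact fun φ => rfl
  | succ j ih =>
    intro φ
    show EE θ D ρ α j _ = L (EE θ D ρ α j _)
    rw [← ih]
    congr 1
    ext x
    rw [map_smul, map_sum]
    simp only [map_smul]

theorem EE_add (j : ℕ) : ∀ (φ ψ : ℝ → V),
    EE θ D ρ α j (fun x => φ x + ψ x) = EE θ D ρ α j φ + EE θ D ρ α j ψ := by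
  induction j with
  | zero => exact fun φ ψ => rfl
  | succ j ih =>
    intro φ ψ
    show EE θ D ρ α j _ = EE θ D ρ α j _ + EE θ D ρ α j _
    rw [← ih]
    congr 1
    ext x
    rw [← smul_add, ← Finset.sum_add_distrib]
    simp only [smul_add]

theorem EE_zero (j : ℕ) : EE θ D ρ α j (fun _ => (0 : V)) = 0 := by
  induction j with
  | zero => rfl
  | succ j ih =>
    show EE θ D ρ α j _ = 0
    simpa using ih

theorem EE_sum {ι : Type*} (s : Finset ι) (j : ℕ) (φ : ι → ℝ → V) :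
    EE θ D ρ α j (fun x => ∑ i ∈ s, φ i x) = ∑ i ∈ s, EE θ D ρ α j (φ i) := by
  classical
  induction s using Finset.induction_on with
  | empty => simpa using EE_zero j
  | insert a s ha ih =>
    simp_rw [Finset.sum_insert ha]
    rw [EE_add, ih]

theorem EE_smul (a : ℝ) (j : ℕ) (φ : ℝ → V) :
    EE θ D ρ α j (fun x => a • φ x) = a • EE θ D ρ α j φ :=
  EE_map (a • (LinearMap.id : V →ₗ[ℝ] V)) j φ

theorem sum_sg : ∑ w : Bool × Bool, sg w.1 * sg w.2 = 0 := by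
  rw [Fintype.sum_prod_type]
  simp [sg]

theorem sum_weights (a : ℝ) : ∑ w : Bool × Bool, (1 + a * (sg w.1 * sg w.2)) = 4 := by
  rw [Finset.sum_add_distrib, ← Finset.mul_sum, sum_sg]
  simp

theorem EE_const (j : ℕ) (v : V) : EE θ D ρ α j (fun _ => v) = v := by
  induction j with
  | zero => rfl
  | succ j ih =>
    show EE θ D ρ α j _ = v
    have h : (fun x : ℝ => (1 / 4 : ℝ) • ∑ w : Bool × Bool,
        (1 + ρ * α j x * (sg w.1 * sg w.2)) • v) = fun _ => v := by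
      ext x
      rw [← Finset.sum_smul, sum_weights, smul_smul]
      norm_num
    rw [h, ih]

theorem weight_nonneg (hρ0 : 0 ≤ ρ) (hρ1 : ρ ≤ 1) (hα : ∀ j x, |α j x| ≤ 1) (j : ℕ) (x : ℝ)
    (w : Bool × Bool) : 0 ≤ 1 + ρ * α j x * (sg w.1 * sg w.2) := by
  have h1 : |ρ * α j x * (sg w.1 * sg w.2)| ≤ 1 := by
    rw [abs_mul, abs_mul, abs_mul, abs_sg, abs_sg, mul_one, mul_one, abs_of_nonneg hρ0]
    exact mul_le_one₀ hρ1 (abs_nonneg _) (hα j x)
  have := (abs_le.1 h1).1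
  linarith

theorem EE_mono (hρ0 : 0 ≤ ρ) (hρ1 : ρ ≤ 1) (hα : ∀ j x, |α j x| ≤ 1) (j : ℕ) :
    ∀ {φ ψ : ℝ → ℝ}, (∀ x ∈ Reach θ D j, φ x ≤ ψ x) → EE θ D ρ α j φ ≤ EE θ D ρ α j ψ := by
  induction j with
  | zero => exact fun h => h 0 rfl
  | succ j ih =>
    intro φ ψ h
    refine ih fun x hx => ?_
    simp only [smul_eq_mul]
    refine mul_le_mul_of_nonneg_left (Finset.sum_le_sum fun w _ => ?_) (by norm_num)
    exact mul_le_mul_of_nonneg_left (h _ ⟨x, hx, w, rfl⟩) (weight_nonneg hρ0 hρ1 hα j x w)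

theorem EE_norm (hρ0 : 0 ≤ ρ) (hρ1 : ρ ≤ 1) (hα : ∀ j x, |α j x| ≤ 1) (j : ℕ) :
    ∀ φ : ℝ → V, ‖EE θ D ρ α j φ‖ ≤ EE θ D ρ α j (fun x => ‖φ x‖) := by
  induction j with
  | zero => exact fun φ => le_rfl
  | succ j ih =>
    intro φ
    show ‖EE θ D ρ α j _‖ ≤ EE θ D ρ α j _
    refine (ih _).trans (EE_mono hρ0 hρ1 hα j fun x _ => ?_)
    rw [norm_smul, Real.norm_of_nonneg (by norm_num : (0 : ℝ) ≤ 1 / 4), smul_eq_mul]
    refine mul_le_mul_of_nonneg_left ((norm_sum_le _ _).trans (le_of_eq ?_)) (by norm_num)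
    refine Finset.sum_congr rfl fun w _ => ?_
    rw [norm_smul, Real.norm_of_nonneg (weight_nonneg hρ0 hρ1 hα j x w), smul_eq_mul]

theorem EE_norm_le (hρ0 : 0 ≤ ρ) (hρ1 : ρ ≤ 1) (hα : ∀ j x, |α j x| ≤ 1) (j : ℕ) {φ : ℝ → V}
    {M : ℝ} (h : ∀ x ∈ Reach θ D j, ‖φ x‖ ≤ M) : ‖EE θ D ρ α j φ‖ ≤ M := by
  refine (EE_norm hρ0 hρ1 hα j φ).trans ?_
  have := EE_mono (θ := θ) (D := D) hρ0 hρ1 hα j (φ := fun x => ‖φ x‖) (ψ := fun _ => M) h
  rwa [EE_const] at this

end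

/-- the mean of a character over a window -/
noncomputable def gam (θ D m : ℝ) (j : ℕ) : ℂ :=
  ((1 + e (m * (D * θ / (θ ^ 2) ^ (j + 1)))) / 2) * ((1 + e (m * (D / (θ ^ 2) ^ (j + 1)))) / 2)

/-- its mean against the product of the two signs -/
noncomputable def bet (θ D m : ℝ) (j : ℕ) : ℂ :=
  ((1 - e (m * (D * θ / (θ ^ 2) ^ (j + 1)))) / 2) * ((1 - e (m * (D / (θ ^ 2) ^ (j + 1)))) / 2)

theorem e_zero' : e 0 = 1 := by unfold e; simp

theorem sum_e (θ D m : ℝ) (j : ℕ) (x : ℝ) (a : ℝ) :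
    (1 / 4 : ℝ) • ∑ w : Bool × Bool, (1 + a * (sg w.1 * sg w.2)) • e (m * (x + sh θ D j w)) =
      (gam θ D m j + a * bet θ D m j) * e (m * x) := by
  have h : ∀ w : Bool × Bool, e (m * (x + sh θ D j w)) = e (m * x) *
      (e (bt w.1 * (m * (D * θ / (θ ^ 2) ^ (j + 1)))) * e (bt w.2 * (m * (D / (θ ^ 2) ^ (j + 1))))) := by
    intro w
    rw [← e_add, ← e_add]
    congr 1
    unfold sh
    ring
  simp_rw [h]
  rw [Fintype.sum_prod_type]
  simp only [Fintype.sum_bool, sg, bt, if_true, one_mul, zero_mul, e_zero', Complex.real_smul,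
    Bool.false_eq_true, if_false]
  unfold gam bet
  push_cast
  ring

theorem norm_one_sub_e (x : ℝ) : ‖(1 - e x) / 2‖ = |Real.sin (Real.pi * x)| := by
  have h1 := EK.norm_one_add_e (x - 1 / 2)
  have h2 : e (x - 1 / 2) = - e x := by
    have h3 : e x = e (x - 1 / 2) * e (1 / 2) := by
      rw [← e_add]
      congr 1
      ring
    have h4 : e (1 / 2) = -1 := by
      unfold e
      have : ((2 * Real.pi * (1 / 2 : ℝ) : ℝ) : ℂ) * Complex.I = Real.pi * Complex.I := by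
        push_cast
        ring
      rw [this, Complex.exp_pi_mul_I]
    rw [h3, h4]
    ring
  rw [h2] at h1
  have h5 : Real.cos (Real.pi * (x - 1 / 2)) = Real.sin (Real.pi * x) := by
    rw [← Real.cos_sub_pi_div_two]
    congr 1
    ring
  rw [h5] at h1
  rw [← h1]
  congr 1

theorem norm_gam (θ D m : ℝ) (j : ℕ) : ‖gam θ D m j‖ =
    |Real.cos (Real.pi * (m * (D * θ / (θ ^ 2) ^ (j + 1))))| *
      |Real.cos (Real.pi * (m * (D / (θ ^ 2) ^ (j + 1))))| := by
  unfold gam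
  rw [norm_mul, EK.norm_one_add_e, EK.norm_one_add_e]

theorem norm_bet (θ D m : ℝ) (j : ℕ) : ‖bet θ D m j‖ =
    |Real.sin (Real.pi * (m * (D * θ / (θ ^ 2) ^ (j + 1))))| *
      |Real.sin (Real.pi * (m * (D / (θ ^ 2) ^ (j + 1))))| := by
  unfold bet
  rw [norm_mul, norm_one_sub_e, norm_one_sub_e]

theorem gam_add_bet_le (θ D m : ℝ) (j : ℕ) : ‖gam θ D m j‖ + ‖bet θ D m j‖ ≤ 1 := by
  rw [norm_gam, norm_bet]
  set a := Real.pi * (m * (D * θ / (θ ^ 2) ^ (j + 1)))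
  set b := Real.pi * (m * (D / (θ ^ 2) ^ (j + 1)))
  have h1 := Real.sin_sq_add_cos_sq a
  have h2 := Real.sin_sq_add_cos_sq b
  have h3 : |Real.cos a| ^ 2 = Real.cos a ^ 2 := sq_abs _
  have h4 : |Real.cos b| ^ 2 = Real.cos b ^ 2 := sq_abs _
  have h5 : |Real.sin a| ^ 2 = Real.sin a ^ 2 := sq_abs _
  have h6 : |Real.sin b| ^ 2 = Real.sin b ^ 2 := sq_abs _
  nlinarith [sq_nonneg (|Real.cos a| - |Real.cos b|), sq_nonneg (|Real.sin a| - |Real.sin b|)]

theorem norm_gam_le (θ D m : ℝ) (j : ℕ) : ‖gam θ D m j‖ ≤ 1 := by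
  have := gam_add_bet_le θ D m j
  have := norm_nonneg (bet θ D m j)
  linarith

/-- **Decorrelation**: the bias changes the mean of every character by at most `ρ`. -/
theorem EE_char {θ D ρ : ℝ} {α : ℕ → ℝ → ℝ} (hρ0 : 0 ≤ ρ) (hρ1 : ρ ≤ 1)
    (hα : ∀ j x, |α j x| ≤ 1) (m : ℝ) (j : ℕ) :
    ‖EE θ D ρ α j (fun x => e (m * x))‖ ≤ ∏ i ∈ range j, ‖gam θ D m i‖ + ρ := by
  have key : ‖EE θ D ρ α j (fun x => e (m * x))‖ ≤
      ∏ i ∈ range j, ‖gam θ D m i‖ + ρ * (1 - ∏ i ∈ range j, ‖gam θ D m i‖) := by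
    induction j with
    | zero =>
      show ‖e (m * 0)‖ ≤ _
      rw [norm_e]
      simp
    | succ j ih =>
      have h1 : EE θ D ρ α (j + 1) (fun x => e (m * x)) =
          gam θ D m j * EE θ D ρ α j (fun x => e (m * x)) +
            bet θ D m j * EE θ D ρ α j (fun x => (ρ * α j x) • e (m * x)) := by
        show EE θ D ρ α j _ = _
        have h2 : (fun x : ℝ => (1 / 4 : ℝ) • ∑ w : Bool × Bool,
            (1 + ρ * α j x * (sg w.1 * sg w.2)) • e (m * (x + sh θ D j w))) =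
            fun x => gam θ D m j * e (m * x) + bet θ D m j * ((ρ * α j x) • e (m * x)) := by
          ext x
          rw [sum_e, Complex.real_smul]
          push_cast
          ring
        rw [h2, EE_add]
        have h3 := EE_map (θ := θ) (D := D) (ρ := ρ) (α := α)
          (LinearMap.mulLeft ℝ (gam θ D m j)) j (fun x => e (m * x))
        have h4 := EE_map (θ := θ) (D := D) (ρ := ρ) (α := α)
          (LinearMap.mulLeft ℝ (bet θ D m j)) j (fun x => (ρ * α j x) • e (m * x))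
        simp only [LinearMap.mulLeft_apply] at h3 h4
        rw [h3, h4]
      have h5 : ‖EE θ D ρ α j (fun x => (ρ * α j x) • e (m * x))‖ ≤ ρ := by
        refine EE_norm_le hρ0 hρ1 hα j fun x _ => ?_
        rw [norm_smul, norm_e, mul_one, Real.norm_eq_abs, abs_mul, abs_of_nonneg hρ0]
        exact mul_le_of_le_one_right hρ0 (hα j x)
      rw [h1, prod_range_succ]
      set P := ∏ i ∈ range j, ‖gam θ D m i‖
      have hg0 := norm_nonneg (gam θ D m j)
      have hb0 := norm_nonneg (bet θ D m j)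
      have h6 := gam_add_bet_le θ D m j
      calc ‖gam θ D m j * EE θ D ρ α j (fun x => e (m * x)) +
            bet θ D m j * EE θ D ρ α j (fun x => (ρ * α j x) • e (m * x))‖ ≤
          ‖gam θ D m j‖ * (P + ρ * (1 - P)) + ‖bet θ D m j‖ * ρ := by
            refine (norm_add_le _ _).trans (add_le_add ?_ ?_)
            · rw [norm_mul]
              exact mul_le_mul_of_nonneg_left ih hg0
            · rw [norm_mul]
              exact mul_le_mul_of_nonneg_left h5 hb0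
        _ ≤ P * ‖gam θ D m j‖ + ρ * (1 - P * ‖gam θ D m j‖) := by
            nlinarith [mul_le_mul_of_nonneg_right (by linarith :
              ‖bet θ D m j‖ ≤ 1 - ‖gam θ D m j‖) hρ0]
  have hP : 0 ≤ ∏ i ∈ range j, ‖gam θ D m i‖ := prod_nonneg fun _ _ => norm_nonneg _
  nlinarith

end Forcing.DZ
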