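import Mathlib

/-!
# Row H1 (helper3): Hadamard's inequality for real matrices

PROOF IN WORDS. `Orientation.abs_volumeForm_apply_le` : `|o.volumeForm v| ≤ ∏ i, ‖v i‖` in an oriented
real inner product space of dimension `n`; take `E = EuclideanSpace ℝ (Fin n)` with the standard
orthonormal basis `b` and its orientation; `Orientation.volumeForm_robust` says that the volume form is
`b.toBasis.det`, and `b.toBasis.det v = Matrix.det (fun i j => v j i)` (`Basis.det_apply`,
`Basis.toMatrix_apply`); apply it to `v j = ` the column `j` of `A` (`WithLp.toLp 2`), with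
`EuclideanSpace.norm_eq`. The case `n = 0` is trivial if it must be treated apart. (Alternatively use
`Matrix.det_mul`, `Matrix.PosSemidef` and AM-GM for the Gram matrix.)
-/

namespace Forcing.DZ

theorem hadamard {n : ℕ} (A : Matrix (Fin n) (Fin n) ℝ) :
    |A.det| ≤ ∏ j, Real.sqrt (∑ i, A i j ^ 2) := by
  rcases Nat.eq_zero_or_pos n with hn | hn
  · subst hn
    simp
  · haveI : NeZero n := ⟨hn.ne'⟩
    haveI : Fact (Module.finrank ℝ (EuclideanSpace ℝ (Fin n)) = n) := ⟨finrank_euclideanSpace_fin⟩
    let b := EuclideanSpace.basisFun (Fin n) ℝ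
    let o := b.toBasis.orientation
    let v : Fin n → EuclideanSpace ℝ (Fin n) := fun j => WithLp.toLp 2 fun i => A i j
    have h1 := o.abs_volumeForm_apply_le v
    have h2 : o.volumeForm = b.toBasis.det := o.volumeForm_robust b rfl
    rw [h2] at h1
    have h3 : b.toBasis.det v = A.det := by
      rw [Module.Basis.det_apply]
      congr 1
    rw [h3] at h1
    refine h1.trans_eq ?_
    refine Finset.prod_congr rfl fun j _ => ?_
    rw [EuclideanSpace.norm_eq]
    congr 1
    refine Finset.sum_congr rfl fun i _ => ?_
    show ‖A i j‖ ^ 2 = _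
    rw [Real.norm_eq_abs, sq_abs]

end Forcing.DZ
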