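import Mathlib

/-!
# Row H2 (helper3): Kronecker's criterion (vanishing Hankel determinants give a linear recurrence)

PROOF IN WORDS. Let `H n` be the matrix `(a (i+j))`, `0 ≤ i, j ≤ n`. If all `det (H n) = 0`: then `a = 0`
(or treat it as the case `m = 0` below, with `U = 1`, `c = a`). Otherwise let `m ≥ 1` be such that
`det (H (m-1)) ≠ 0` and `det (H n) = 0` for all `n ≥ m` (Nat.find / Nat.findGreatest).
Since `H (m-1)` is invertible there are `u 0, …, u (m-1)` with
`a (m+j) = ∑ i < m, u i * a (i+j)` for `j = 0, …, m-1`. Put `U = X^m - ∑ u i X^i` (monic, degree `m`) and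
`c j = ∑ i ≤ m, U.coeff i * a (i+j)`; `c j = 0` for `j < m`. CLAIM: `c = 0` (that is the theorem). If not,
let `m + k` (`k ≥ 0`) be the least index with `c (m+k) ≠ 0`. We show `det (H (m+k)) ≠ 0`, a contradiction.
Let `v ∈ F^(m+k+1)` with `H (m+k) v = 0` (`Matrix.exists_mulVec_eq_zero_iff`), `V = ∑ v i X^i` (degree
`≤ m+k`): for a polynomial `W` write `(W·b) j = ∑ i, W.coeff i * b (i+j)` (finite sum); `(W W')·b =
W·(W'·b)`. So `(V·a) j = 0` for `j ≤ m+k`. Divide: `V = Q U + R` (`Polynomial.modByMonic_add_div`),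
`deg R < m`, `deg Q ≤ k`. `(V·a) j = (Q·c) j + (R·a) j`. For `j < m`: `(Q·c) j` only involves `c i` with
`i ≤ k + m - 1`, so it is `0`; so `(R·a) j = 0` for `j < m`, i.e. `H (m-1) R = 0`, so `R = 0`. Then for
`j = m, m+1, …, m+k`: `0 = (Q·c) j`; `j = m` gives `Q_k c (m+k) = 0`, so `Q_k = 0`; `j = m+1` gives
`Q_(k-1) = 0`; … so `Q = 0`. Hence `V = 0`, `v = 0`. (For `m = 0` the same proof with `U = 1`, `R = 0`.)
-/

open Polynomial

namespace Forcing.DZ

/-- the linear functional `X^i ↦ a i` -/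
private noncomputable def h2L {F : Type*} [Field F] (a : ℕ → F) : F[X] →ₗ[F] F := (Polynomial.basisMonomials F).constr F a

private lemma h2L_X {F : Type*} [Field F] (a : ℕ → F) (i : ℕ) : h2L a (X ^ i) = a i := by
  have h : (X ^ i : F[X]) = Polynomial.basisMonomials F i := by
    rw [Polynomial.coe_basisMonomials, Polynomial.X_pow_eq_monomial]
  rw [h, h2L, Module.Basis.constr_basis]

private lemma h2L_CX {F : Type*} [Field F] (a : ℕ → F) (c : F) (i : ℕ) : h2L a (C c * X ^ i) = c * a i := by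
  rw [← Polynomial.smul_eq_C_mul, map_smul, h2L_X, smul_eq_mul]

/-- the value at `X^n * W` -/
private lemma h2L_mul {F : Type*} [Field F] (a : ℕ → F) (n : ℕ) (W : F[X]) :
    h2L a (X ^ n * W) = ∑ i ∈ Finset.range (W.natDegree + 1), W.coeff i * a (n + i) := by
  conv_lhs => rw [W.as_sum_range_C_mul_X_pow, Finset.mul_sum, map_sum]
  refine Finset.sum_congr rfl fun i _ => ?_
  have : X ^ n * (C (W.coeff i) * X ^ i) = C (W.coeff i) * X ^ (n + i) := by rw [pow_add]; ring
  rw [this, h2L_CX]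

/-- the value at `X^n * (Q * U)` -/
private lemma h2L_mul' {F : Type*} [Field F] (a : ℕ → F) (n : ℕ) (Q U : F[X]) :
    h2L a (X ^ n * (Q * U)) = ∑ i ∈ Finset.range (Q.natDegree + 1), Q.coeff i * h2L a (X ^ (n + i) * U) := by
  conv_lhs => rw [Q.as_sum_range_C_mul_X_pow, Finset.sum_mul, Finset.mul_sum, map_sum]
  refine Finset.sum_congr rfl fun i _ => ?_
  have : X ^ n * (C (Q.coeff i) * X ^ i * U) = C (Q.coeff i) * (X ^ (n + i) * U) := by rw [pow_add]; ring
  rw [this, ← Polynomial.smul_eq_C_mul, map_smul, smul_eq_mul]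

/-- the Hankel form of size `m` is nondegenerate -/
private def h2N {F : Type*} [Field F] (a : ℕ → F) (m : ℕ) : Prop :=
  ∀ V : F[X], V.degree < m → (∀ j, j < m → h2L a (X ^ j * V) = 0) → V = 0

private lemma h2_fin_coeff {F : Type*} [Field F] {m : ℕ} (v : Fin m → F) (j : Fin m) :
    (∑ i : Fin m, C (v i) * X ^ (i : ℕ)).coeff j = v j := by
  rw [Polynomial.finsetSum_coeff, Finset.sum_eq_single j]
  · simp
  · intro b _ hb
    rw [Polynomial.coeff_C_mul_X_pow, if_neg]
    intro h
    exact hb (Fin.ext h.symm)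
  · intro h
    exact absurd (Finset.mem_univ j) h

private lemma h2_fin_val {F : Type*} [Field F] (a : ℕ → F) {m : ℕ} (v : Fin m → F) (j : ℕ) :
    h2L a (X ^ j * ∑ i : Fin m, C (v i) * X ^ (i : ℕ)) = ∑ i : Fin m, v i * a (j + i) := by
  rw [Finset.mul_sum, map_sum]
  refine Finset.sum_congr rfl fun i _ => ?_
  have : X ^ j * (C (v i) * X ^ (i : ℕ)) = C (v i) * X ^ (j + (i : ℕ)) := by rw [pow_add]; ring
  rw [this, h2L_CX]

private lemma h2_not {F : Type*} [Field F] (a : ℕ → F) (n : ℕ)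
    (h : (Matrix.of fun i j : Fin (n + 1) => a ((i : ℕ) + j)).det = 0) : ¬ h2N a (n + 1) := by
  intro hN
  obtain ⟨v, hv0, hv⟩ := Matrix.exists_mulVec_eq_zero_iff.mpr h
  have hV := hN (∑ i : Fin (n + 1), C (v i) * X ^ (i : ℕ)) (Polynomial.degree_sum_fin_lt v) (by
    intro j hj
    rw [h2_fin_val]
    have := congrFun hv ⟨j, hj⟩
    simp only [Matrix.mulVec, dotProduct, Matrix.of_apply, Pi.zero_apply] at this
    rw [← this]
    exact Finset.sum_congr rfl fun i _ => mul_comm _ _)
  apply hv0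
  ext j
  rw [← h2_fin_coeff v j, hV]
  simp

private lemma h2_exists {F : Type*} [Field F] (a : ℕ → F) (m : ℕ) (hN : h2N a m) :
    ∃ R : F[X], R.degree < m ∧ ∀ j, j < m → h2L a (X ^ j * R) = a (j + m) := by
  let T : (Fin m → F) →ₗ[F] (Fin m → F) := (Matrix.of fun i j : Fin m => a ((i : ℕ) + j)).mulVecLin
  have hT : ∀ v j, T v j = h2L a (X ^ (j : ℕ) * ∑ i : Fin m, C (v i) * X ^ (i : ℕ)) := by
    intro v j
    rw [h2_fin_val]
    simp only [T, Matrix.mulVecLin_apply, Matrix.mulVec, dotProduct, Matrix.of_apply]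
    exact Finset.sum_congr rfl fun i _ => mul_comm _ _
  have hinj : Function.Injective T := by
    rw [← LinearMap.ker_eq_bot, LinearMap.ker_eq_bot']
    intro v hv
    have hV := hN (∑ i : Fin m, C (v i) * X ^ (i : ℕ)) (Polynomial.degree_sum_fin_lt v) (by
      intro j hj
      have := hT v ⟨j, hj⟩
      rw [hv] at this
      exact this.symm)
    ext j
    rw [← h2_fin_coeff v j, hV]
    simp
  obtain ⟨v, hv⟩ := (LinearMap.injective_iff_surjective.mp hinj) (fun j => a ((j : ℕ) + m))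
  refine ⟨∑ i : Fin m, C (v i) * X ^ (i : ℕ), Polynomial.degree_sum_fin_lt v, fun j hj => ?_⟩
  have := hT v ⟨j, hj⟩
  rw [hv] at this
  exact this.symm

private lemma h2_step {F : Type*} [Field F] (a : ℕ → F) (m k : ℕ) (hN : h2N a m) (U : F[X]) (hU : U.Monic)
    (hUm : U.natDegree = m) (hc : ∀ j, j < m + k → h2L a (X ^ j * U) = 0) (hk : h2L a (X ^ (m + k) * U) ≠ 0) :
    h2N a (m + k + 1) := by
  intro V hV hj
  have hdiv : V %ₘ U + U * (V /ₘ U) = V := Polynomial.modByMonic_add_div V U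
  set R := V %ₘ U with hR
  set Q := V /ₘ U with hQ
  have hRdeg : R.degree < m := by
    have := Polynomial.degree_modByMonic_lt V hU
    rwa [Polynomial.degree_eq_natDegree hU.ne_zero, hUm] at this
  have hQdeg : Q.natDegree ≤ k := by
    rw [hQ, Polynomial.natDegree_divByMonic V hU, hUm]
    by_cases hV0 : V = 0
    · rw [hV0]; simp
    · have : V.natDegree < m + k + 1 := (Polynomial.natDegree_lt_iff_degree_lt hV0).mpr (by exact_mod_cast hV)
      omega
  have hsplit : ∀ j, h2L a (X ^ j * V) = h2L a (X ^ j * R) + h2L a (X ^ j * (Q * U)) := by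
    intro j
    rw [← map_add, ← mul_add, mul_comm Q U, hdiv]
  have hR0 : R = 0 := by
    apply hN R hRdeg
    intro j hjm
    have h1 := hsplit j
    rw [hj j (by omega), h2L_mul', Finset.sum_eq_zero, add_zero] at h1
    · exact h1.symm
    · intro i hi
      rw [Finset.mem_range] at hi
      rw [hc (j + i) (by omega), mul_zero]
  have hQ0 : Q = 0 := by
    by_contra hne
    have h1 := hsplit (m + k - Q.natDegree)
    rw [hj _ (by omega), hR0, mul_zero, map_zero, zero_add, h2L_mul', Finset.sum_range_succ, Finset.sum_eq_zero, zero_add] at h1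
    · rw [show m + k - Q.natDegree + Q.natDegree = m + k by omega] at h1
      have h2 : Q.coeff Q.natDegree ≠ 0 := by
        rw [Polynomial.coeff_natDegree]; exact Polynomial.leadingCoeff_ne_zero.mpr hne
      exact mul_ne_zero h2 hk h1.symm
    · intro i hi
      rw [Finset.mem_range] at hi
      rw [hc _ (by omega), mul_zero]
  rw [← hdiv, hR0, hQ0]
  simp

theorem kronecker {F : Type*} [Field F] (a : ℕ → F) (N : ℕ)
    (h : ∀ n, N ≤ n → (Matrix.of fun i j : Fin (n + 1) => a ((i : ℕ) + j)).det = 0) :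
    ∃ U : F[X], U.Monic ∧
      ∀ n, ∑ i ∈ Finset.range (U.natDegree + 1), U.coeff i * a (n + i) = 0 := by
  classical
  have h0 : h2N a 0 := by
    intro V hV _
    by_contra hne
    have := (Polynomial.natDegree_lt_iff_degree_lt hne).mpr hV
    omega
  have hbig : ∀ n, N < n → ¬ h2N a n := by
    intro n hn
    obtain ⟨k, rfl⟩ : ∃ k, n = k + 1 := ⟨n - 1, by omega⟩
    exact h2_not a k (h k (by omega))
  set m := Nat.findGreatest (h2N a) N with hm
  have hmN : h2N a m := Nat.findGreatest_spec (P := h2N a) (Nat.zero_le N) h0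
  have hgt : ∀ n, m < n → ¬ h2N a n := by
    intro n hn
    by_cases hnN : n ≤ N
    · exact Nat.findGreatest_is_greatest hn hnN
    · exact hbig n (by omega)
  obtain ⟨R, hRdeg, hR⟩ := h2_exists a m hmN
  have hmon : (X ^ m - R : F[X]).Monic := Polynomial.monic_X_pow_sub (by exact_mod_cast hRdeg)
  have hnat : (X ^ m - R : F[X]).natDegree = m := by
    apply Polynomial.natDegree_eq_of_degree_eq_some
    rw [Polynomial.degree_sub_eq_left_of_degree_lt, Polynomial.degree_X_pow]
    rw [Polynomial.degree_X_pow]; exact_mod_cast hRdeg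
  refine ⟨X ^ m - R, hmon, fun n => ?_⟩
  rw [← h2L_mul]
  by_contra hne
  have hex : ∃ n, h2L a (X ^ n * (X ^ m - R)) ≠ 0 := ⟨n, hne⟩
  set n0 := Nat.find hex with hn0
  have h1 : h2L a (X ^ n0 * (X ^ m - R)) ≠ 0 := Nat.find_spec hex
  have h2 : ∀ j, j < n0 → h2L a (X ^ j * (X ^ m - R)) = 0 := fun j hj => by
    by_contra h3
    exact Nat.find_min hex hj h3
  have h3 : m ≤ n0 := by
    by_contra hlt
    apply h1
    rw [mul_sub, map_sub, ← pow_add, h2L_X, hR n0 (by omega), sub_self]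
  obtain ⟨k, hk⟩ : ∃ k, n0 = m + k := ⟨n0 - m, by omega⟩
  rw [hk] at h1 h2
  exact hgt (m + k + 1) (by omega) (h2_step a m k hmN _ hmon hnat h2 h1)

end Forcing.DZ
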