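import Pool.Agent.Lib.MP_c80ac4_an.DZ.Gain

/-! # The lower bound -/

namespace Forcing.DZ

open Forcing.Ratio Finset

theorem e_neg' (x : ℝ) : e (-x) = (starRingEnd ℂ) (e x) := by
  have h1 : e (-x) * e x = 1 := by rw [← e_add, neg_add_cancel, e_zero']
  have h2 : (starRingEnd ℂ) (e x) * e x = 1 := by
    rw [mul_comm, Complex.mul_conj, Complex.normSq_eq_norm_sq, norm_e]
    simp
  have h3 : e x ≠ 0 := fun h => by
    have := norm_e x
    rw [h, norm_zero] at this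
    exact zero_ne_one this
  exact mul_right_cancel₀ h3 (h1.trans h2.symm)

/-- **One window.** -/
theorem lower {θ D ρ : ℝ} {α : ℕ → ℝ → ℝ} (hρ0 : 0 ≤ ρ) (hρ1 : ρ ≤ 1) (hα : ∀ j x, |α j x| ≤ 1)
    {s : Finset ℕ} (b : ℕ → ℂ) {n0 : ℕ} (h0 : n0 ∈ s) (j : ℕ) {δ : ℕ → ℝ}
    (h1 : ∀ n ∈ s, n ≠ n0 → ‖EE θ D ρ α j (fun x => e (((n : ℝ) - n0) * x))‖ ≤ δ n)
    (h2 : ∀ n ∈ s, ‖EE θ D ρ α j (fun x => e (((n : ℝ) + n0) * x))‖ ≤ δ n) :
    ‖b n0‖ / 2 - ∑ n ∈ s, ‖b n‖ * δ n ≤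
      EE θ D ρ α j (fun x => |(∑ n ∈ s, b n * e (n * x)).re|) := by
  classical
  obtain ⟨u, hu, hub⟩ : ∃ u : ℂ, ‖u‖ = 1 ∧ b n0 * (starRingEnd ℂ) u = (‖b n0‖ : ℂ) := by
    by_cases hb : b n0 = 0
    · exact ⟨1, norm_one, by simp [hb]⟩
    · have hb' : ‖b n0‖ ≠ 0 := norm_ne_zero_iff.2 hb
      refine ⟨b n0 / ‖b n0‖, by simp [hb'], ?_⟩
      rw [map_div₀, Complex.conj_ofReal, ← mul_div_assoc, Complex.mul_conj,
        Complex.normSq_eq_norm_sq]
      have : (‖b n0‖ : ℂ) ≠ 0 := by exact_mod_cast hb'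
      push_cast
      field_simp
  set B : ℝ → ℂ := fun x => ∑ n ∈ s, b n * e (n * x) with hB
  set Y : ℝ → ℂ := fun x => ∑ n ∈ s, (b n * (starRingEnd ℂ) u) * e (((n : ℝ) - n0) * x) +
    ∑ n ∈ s, (b n * u) * e (((n : ℝ) + n0) * x) with hY
  -- pointwise
  have hpt : ∀ x, (1 / 2 : ℝ) • (Y x).re ≤ |(B x).re| := by
    intro x
    set E := u * e (n0 * x) with hE
    have hE1 : ‖E‖ = 1 := by rw [hE, norm_mul, hu, norm_e, one_mul]
    have hYx : Y x = B x * (starRingEnd ℂ) E + B x * E := by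
      rw [hY, hB, hE]
      simp only
      rw [Finset.sum_mul, Finset.sum_mul]
      congr 1
      · refine Finset.sum_congr rfl fun n _ => ?_
        rw [map_mul, ← e_neg']
        have : ((n : ℝ) - n0) * x = n * x + (-(n0 * x)) := by ring
        rw [this, e_add]
        ring
      · refine Finset.sum_congr rfl fun n _ => ?_
        have : ((n : ℝ) + n0) * x = n * x + n0 * x := by ring
        rw [this, e_add]
        ring
    have h3 : (Y x).re = 2 * ((B x).re * E.re) := by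
      rw [hYx, Complex.add_re, Complex.mul_re, Complex.mul_re, Complex.conj_re, Complex.conj_im]
      ring
    have h4 : |E.re| ≤ 1 := (Complex.abs_re_le_norm E).trans hE1.le
    rw [h3, smul_eq_mul]
    calc 1 / 2 * (2 * ((B x).re * E.re)) = (B x).re * E.re := by ring
      _ ≤ |(B x).re * E.re| := le_abs_self _
      _ = |(B x).re| * |E.re| := abs_mul _ _
      _ ≤ |(B x).re| * 1 := mul_le_mul_of_nonneg_left h4 (abs_nonneg _)
      _ = |(B x).re| := mul_one _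
  have h5 : (1 / 2 : ℝ) * (EE θ D ρ α j Y).re ≤ EE θ D ρ α j (fun x => |(B x).re|) := by
    have h6 := EE_map (θ := θ) (D := D) (ρ := ρ) (α := α) Complex.reLm j Y
    simp only [Complex.reLm_coe] at h6
    rw [← h6, ← smul_eq_mul, ← EE_smul]
    exact EE_mono hρ0 hρ1 hα j fun x _ => hpt x
  refine le_trans ?_ h5
  have hmulc : ∀ (a : ℂ) (m : ℝ), EE θ D ρ α j (fun x => a * e (m * x)) =
      a * EE θ D ρ α j (fun x => e (m * x)) := by
    intro a m
    have h6 := EE_map (θ := θ) (D := D) (ρ := ρ) (α := α) (LinearMap.mulLeft ℝ a) j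
      (fun x => e (m * x))
    simpa only [LinearMap.mulLeft_apply] using h6
  have h7 : EE θ D ρ α j Y = ∑ n ∈ s, (b n * (starRingEnd ℂ) u) *
        EE θ D ρ α j (fun x => e (((n : ℝ) - n0) * x)) +
      ∑ n ∈ s, (b n * u) * EE θ D ρ α j (fun x => e (((n : ℝ) + n0) * x)) := by
    rw [hY, EE_add, EE_sum, EE_sum]
    simp_rw [hmulc]
  have h8 : EE θ D ρ α j (fun x => e (((n0 : ℝ) - n0) * x)) = 1 := by
    have : (fun x : ℝ => e (((n0 : ℝ) - n0) * x)) = fun _ => (1 : ℂ) := by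
      ext x
      rw [sub_self, zero_mul, e_zero']
    rw [this, EE_const]
  have h7' : ∑ n ∈ s, (b n * (starRingEnd ℂ) u) *
        EE θ D ρ α j (fun x => e (((n : ℝ) - n0) * x)) =
      (b n0 * (starRingEnd ℂ) u) * EE θ D ρ α j (fun x => e (((n0 : ℝ) - n0) * x)) +
      ∑ n ∈ s.erase n0, (b n * (starRingEnd ℂ) u) *
        EE θ D ρ α j (fun x => e (((n : ℝ) - n0) * x)) :=
    (Finset.add_sum_erase s (fun n => (b n * (starRingEnd ℂ) u) *
        EE θ D ρ α j (fun x => e (((n : ℝ) - n0) * x))) h0).symm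
  rw [h7, h7', h8, mul_one, hub, Complex.add_re, Complex.add_re,
    Complex.ofReal_re]
  have h9 : -∑ n ∈ s, ‖b n‖ * δ n ≤ (∑ n ∈ s.erase n0, (b n * (starRingEnd ℂ) u) *
        EE θ D ρ α j (fun x => e (((n : ℝ) - n0) * x))).re := by
    have h10 : ‖∑ n ∈ s.erase n0, (b n * (starRingEnd ℂ) u) *
        EE θ D ρ α j (fun x => e (((n : ℝ) - n0) * x))‖ ≤ ∑ n ∈ s, ‖b n‖ * δ n := by
      refine (norm_sum_le _ _).trans ?_
      refine (Finset.sum_le_sum (g := fun n => ‖b n‖ * δ n) fun n hn => ?_).trans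
        (Finset.sum_le_sum_of_subset_of_nonneg (Finset.erase_subset _ _) fun n hn _ => ?_)
      · rw [norm_mul, norm_mul, RCLike.norm_conj, hu, mul_one]
        exact mul_le_mul_of_nonneg_left (h1 n (Finset.mem_of_mem_erase hn)
          (Finset.ne_of_mem_erase hn)) (norm_nonneg _)
      · exact mul_nonneg (norm_nonneg _) ((norm_nonneg _).trans (h2 n hn))
    have h11 := (abs_le.1 ((Complex.abs_re_le_norm _).trans h10)).1
    linarith
  have h10 : -∑ n ∈ s, ‖b n‖ * δ n ≤ (∑ n ∈ s, (b n * u) *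
        EE θ D ρ α j (fun x => e (((n : ℝ) + n0) * x))).re := by
    have h10 : ‖∑ n ∈ s, (b n * u) *
        EE θ D ρ α j (fun x => e (((n : ℝ) + n0) * x))‖ ≤ ∑ n ∈ s, ‖b n‖ * δ n := by
      refine (norm_sum_le _ _).trans (Finset.sum_le_sum fun n hn => ?_)
      rw [norm_mul, norm_mul, hu, mul_one]
      exact mul_le_mul_of_nonneg_left (h2 n hn) (norm_nonneg _)
    have h11 := (abs_le.1 ((Complex.abs_re_le_norm _).trans h10)).1
    linarith
  linarith

section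
variable {θ D : ℝ} {s : Finset ℕ} {c : ℕ → ℂ} {J : ℕ}

/-- the weight of a frequency in a window -/
noncomputable def WW (θ D : ℝ) (J n j : ℕ) : ℝ := ‖bet θ D n j‖ * ‖FF θ D J n (j + 1)‖

theorem WW_nonneg (n j : ℕ) : 0 ≤ WW θ D J n j := mul_nonneg (norm_nonneg _) (norm_nonneg _)

theorem norm_bb (n j : ℕ) : ‖bb θ D c J n j‖ = ‖c n‖ * WW θ D J n j := by
  unfold bb WW
  rw [norm_mul, norm_mul]

theorem WW_le {n j : ℕ} (hj : j < J) :
    WW θ D J n j ≤ ‖FF θ D J n (j + 1)‖ - ‖FF θ D J n j‖ := by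
  unfold WW
  rw [FF_succ hj, norm_mul]
  have h := gam_add_bet_le θ D n j
  have h2 := norm_nonneg (FF θ D J n (j + 1))
  nlinarith

theorem sum_WW {n : ℕ} : ∀ j1, j1 ≤ J → ∑ j ∈ range j1, WW θ D J n j ≤
    ‖FF θ D J n j1‖ - ‖FF θ D J n 0‖ := by
  intro j1
  induction j1 with
  | zero => simp
  | succ k ih =>
    intro hk
    rw [sum_range_succ]
    have h1 := ih (by omega)
    have h2 := WW_le (θ := θ) (D := D) (J := J) (n := n) (j := k) (by omega)
    linarith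

theorem norm_FF_le_one (n j : ℕ) : ‖FF θ D J n j‖ ≤ 1 := by
  unfold FF
  rw [norm_prod]
  exact prod_le_one (fun _ _ => norm_nonneg _) fun _ _ => norm_gam_le _ _ _ _

theorem sum_WW_le_one (n : ℕ) : ∑ j ∈ range J, WW θ D J n j ≤ 1 := by
  have h1 := sum_WW (θ := θ) (D := D) (J := J) (n := n) J le_rfl
  have h2 := norm_FF_le_one (θ := θ) (D := D) (J := J) n J
  have h3 := norm_nonneg (FF θ D J n 0)
  linarith

/-- **The key inequality.** -/
theorem key_ineq {ρ M : ℝ} (hρ0 : 0 ≤ ρ) (hρ1 : ρ ≤ 1)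
    (hM : ∀ x ∈ Reach θ D J, ‖∑ n ∈ s, c n * e (n * x)‖ ≤ M) {A : Finset ℕ} (hAs : A ⊆ s)
    (jn : ℕ → ℕ) (hinj : ∀ m ∈ A, ∀ n ∈ A, jn m = jn n → m = n) (hJ : ∀ n ∈ A, jn n < J)
    {b0 d d2 : ℝ} (hd : 0 ≤ d) (hb0 : ∀ n ∈ A, b0 ≤ WW θ D J n (jn n)) (j1 : ℕ → ℕ)
    (hfar : ∀ n ∈ s, ∑ j ∈ range (j1 n), WW θ D J n j ≤ d2)
    (hnear1 : ∀ n0 ∈ A, ∀ n ∈ s, j1 n ≤ jn n0 → n ≠ n0 → ∀ α : ℕ → ℝ → ℝ,
      (∀ j x, |α j x| ≤ 1) → ‖EE θ D ρ α (jn n0) (fun x => e (((n : ℝ) - n0) * x))‖ ≤ d)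
    (hnear2 : ∀ n0 ∈ A, ∀ n ∈ s, j1 n ≤ jn n0 → ∀ α : ℕ → ℝ → ℝ,
      (∀ j x, |α j x| ≤ 1) → ‖EE θ D ρ α (jn n0) (fun x => e (((n : ℝ) + n0) * x))‖ ≤ d) :
    ρ * (b0 / 2 * ∑ n ∈ A, ‖c n‖ - (d + d2) * ∑ n ∈ s, ‖c n‖) ≤ 2 * M := by
  classical
  refine le_trans ?_ (gain (θ := θ) (D := D) hρ0 hρ1 hM)
  refine mul_le_mul_of_nonneg_left ?_ hρ0
  set α := al θ D s c J with hα
  have hα1 : ∀ j x, |α j x| ≤ 1 := abs_al
  -- the bound for one frequency and one window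
  set δ : ℕ → ℕ → ℝ := fun n j => if j < j1 n then 1 else d with hδ
  have hone : ∀ (m : ℝ) (j : ℕ), ‖EE θ D ρ α j (fun x => e (m * x))‖ ≤ 1 := fun m j =>
    EE_norm_le hρ0 hρ1 hα1 j fun x _ => (norm_e _).le
  have hwin : ∀ n0 ∈ A, b0 / 2 * ‖c n0‖ - ∑ n ∈ s, ‖c n‖ * (WW θ D J n (jn n0) * δ n (jn n0)) ≤
      EE θ D ρ α (jn n0) (fun x => |(BB θ D s c J (jn n0) x).re|) := by
    intro n0 hn0
    have h1 := lower (θ := θ) (D := D) (ρ := ρ) (α := α) hρ0 hρ1 hα1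
      (fun n => bb θ D c J n (jn n0)) (hAs hn0) (jn n0) (δ := fun n => δ n (jn n0))
      (fun n hn hne => by
        simp only [hδ]
        split_ifs with h
        · exact hone _ _
        · exact hnear1 n0 hn0 n hn (not_lt.1 h) hne α hα1)
      (fun n hn => by
        simp only [hδ]
        split_ifs with h
        · exact hone _ _
        · exact hnear2 n0 hn0 n hn (not_lt.1 h) α hα1)
    refine le_trans ?_ h1
    simp only [norm_bb]
    have h2 : b0 * ‖c n0‖ ≤ ‖c n0‖ * WW θ D J n0 (jn n0) := by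
      rw [mul_comm]
      exact mul_le_mul_of_nonneg_left (hb0 n0 hn0) (norm_nonneg _)
    have h3 : ∑ n ∈ s, ‖c n‖ * (WW θ D J n (jn n0) * δ n (jn n0)) =
        ∑ n ∈ s, ‖c n‖ * WW θ D J n (jn n0) * δ n (jn n0) :=
      sum_congr rfl fun n _ => by ring
    rw [h3]
    linarith
  -- sum over the windows
  have hmaps : A.image jn ⊆ range J := by
    intro j hj
    obtain ⟨n, hn, rfl⟩ := mem_image.1 hj
    exact mem_range.2 (hJ n hn)
  have hEE0 : ∀ j, 0 ≤ EE θ D ρ α j (fun x => |(BB θ D s c J j x).re|) := by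
    intro j
    have := EE_mono (θ := θ) (D := D) hρ0 hρ1 hα1 j (φ := fun _ => (0 : ℝ))
      (ψ := fun x => |(BB θ D s c J j x).re|) fun x _ => abs_nonneg _
    rwa [EE_const] at this
  have hsum1 : ∑ n0 ∈ A, EE θ D ρ α (jn n0) (fun x => |(BB θ D s c J (jn n0) x).re|) ≤
      ∑ j ∈ range J, EE θ D ρ α j (fun x => |(BB θ D s c J j x).re|) := by
    rw [← Finset.sum_image (f := fun j => EE θ D ρ α j (fun x => |(BB θ D s c J j x).re|))
      (fun m hm n hn h => hinj m hm n hn h)]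
    exact Finset.sum_le_sum_of_subset_of_nonneg hmaps fun j _ _ => hEE0 j
  refine le_trans ?_ hsum1
  refine le_trans ?_ (Finset.sum_le_sum hwin)
  rw [Finset.sum_sub_distrib, ← Finset.mul_sum]
  have hdist : ∑ n0 ∈ A, ∑ n ∈ s, ‖c n‖ * (WW θ D J n (jn n0) * δ n (jn n0)) ≤
      (d + d2) * ∑ n ∈ s, ‖c n‖ := by
    rw [Finset.sum_comm, Finset.mul_sum]
    refine Finset.sum_le_sum fun n hn => ?_
    rw [← Finset.mul_sum, mul_comm (d + d2)]
    refine mul_le_mul_of_nonneg_left ?_ (norm_nonneg _)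
    have hδ0 : ∀ j, 0 ≤ WW θ D J n j * δ n j := by
      intro j
      refine mul_nonneg (WW_nonneg _ _) ?_
      simp only [hδ]
      split_ifs
      · exact zero_le_one
      · exact hd
    have h1 : ∑ n0 ∈ A, WW θ D J n (jn n0) * δ n (jn n0) ≤
        ∑ j ∈ range J, WW θ D J n j * δ n j := by
      rw [← Finset.sum_image (f := fun j => WW θ D J n j * δ n j)
        (fun m hm n hn h => hinj m hm n hn h)]
      exact Finset.sum_le_sum_of_subset_of_nonneg hmaps fun j _ _ => hδ0 j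
    refine h1.trans ?_
    have h2 : ∀ j ∈ range J, WW θ D J n j * δ n j ≤ d * WW θ D J n j +
        (if j < j1 n then WW θ D J n j else 0) := by
      intro j _
      simp only [hδ]
      have := WW_nonneg (θ := θ) (D := D) (J := J) n j
      split_ifs
      · nlinarith
      · rw [add_zero, mul_comm]
    refine (Finset.sum_le_sum h2).trans ?_
    rw [Finset.sum_add_distrib, ← Finset.mul_sum]
    refine add_le_add ?_ ?_
    · exact mul_le_of_le_one_right hd (sum_WW_le_one n)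
    · rw [← Finset.sum_filter]
      refine le_trans (Finset.sum_le_sum_of_subset_of_nonneg ?_ fun j _ _ => WW_nonneg _ _)
        (hfar n hn)
      intro j hj
      exact mem_range.2 (Finset.mem_filter.1 hj).2
  linarith

end

end Forcing.DZ
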